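import Pool.Agent.P8H53.Arc.Line

set_option autoImplicit false

/-! Windows: the `w` outermost arcs below an absent outer arc `v`. -/

namespace Pool.Agent.P8H53.Arc

open Finset

theorem Top_agree {w : ℕ} {N N' : Finset ℤ} {p : ℤ} (h : ∀ q, p < q → (q ∈ N ↔ q ∈ N'))
    (hw : w ≤ (N.filter (p < ·)).card) : Top w N = Top w N' := by
  classical
  have hf : ∀ q, p ≤ q → N.filter (q < ·) = N'.filter (q < ·) := by
    intro q hq
    ext r
    rw [mem_filter, mem_filter]
    constructor
    · rintro ⟨h1, h2⟩; exact ⟨(h r (by omega)).1 h1, h2⟩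
    · rintro ⟨h1, h2⟩; exact ⟨(h r (by omega)).2 h1, h2⟩
  ext q
  rw [mem_Top, mem_Top]
  by_cases hq : p < q
  · rw [hf q hq.le, h q hq]
  · have h1 : N.filter (p < ·) ⊆ N.filter (q < ·) := by
      intro r hr
      rw [mem_filter] at hr ⊢
      exact ⟨hr.1, by omega⟩
    have h2 : N.filter (p < ·) ⊆ N'.filter (q < ·) := by
      rw [hf p le_rfl]
      intro r hr
      rw [mem_filter] at hr ⊢
      exact ⟨hr.1, by omega⟩
    have c1 := card_le_card h1
    have c2 := card_le_card h2
    constructor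
    · rintro ⟨_, h3⟩; omega
    · rintro ⟨_, h3⟩; omega

theorem one_change_aux {w : ℕ} {N N' : Finset ℤ} {a b : ℤ} (h1 : ∀ q ∈ N, q ∉ N' → q = a)
    (h2 : ∀ q ∈ N', q ∉ N → q = b) {q q' : ℤ} (hq : q ∈ Top w N \ Top w N')
    (hq' : q' ∈ Top w N \ Top w N') : ¬ q < q' := by
  classical
  intro hlt
  rw [mem_sdiff, mem_Top, mem_Top] at hq hq'
  obtain ⟨⟨a1, a2⟩, a3⟩ := hq
  obtain ⟨⟨b1, b2⟩, b3⟩ := hq'
  have c1 : insert q' (N.filter (q' < ·)) ⊆ N.filter (q < ·) := by
    intro r hr
    rcases mem_insert.1 hr with rfl | hr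
    · exact mem_filter.2 ⟨b1, hlt⟩
    · rw [mem_filter] at hr ⊢
      exact ⟨hr.1, by omega⟩
  have c2 := card_le_card c1
  rw [card_insert_of_notMem (by rw [mem_filter]; rintro ⟨_, h⟩; exact lt_irrefl _ h)] at c2
  have hq'N : q' ∉ N' := by
    intro h
    apply b3
    refine ⟨h, ?_⟩
    have c3 : N'.filter (q' < ·) ⊆ insert b (N.filter (q' < ·)) := by
      intro r hr
      rw [mem_filter] at hr
      by_cases hrN : r ∈ N
      · exact mem_insert_of_mem (mem_filter.2 ⟨hrN, hr.2⟩)
      · rw [h2 r hr.1 hrN]; exact mem_insert_self _ _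
    have c4 := (card_le_card c3).trans (card_insert_le _ _)
    omega
  have hqN : q ∈ N' := by
    by_contra h
    have e1 := h1 q a1 h
    have e2 := h1 q' b1 hq'N
    omega
  apply a3
  refine ⟨hqN, ?_⟩
  have c3 : N'.filter (q < ·) ⊆ insert b ((N.filter (q < ·)).erase q') := by
    intro r hr
    rw [mem_filter] at hr
    by_cases hrN : r ∈ N
    · refine mem_insert_of_mem (mem_erase.2 ⟨?_, mem_filter.2 ⟨hrN, hr.2⟩⟩)
      rintro rfl
      exact hq'N hr.1
    · rw [h2 r hr.1 hrN]; exact mem_insert_self _ _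
  have c4 := (card_le_card c3).trans (card_insert_le _ _)
  have hmem : q' ∈ N.filter (q < ·) := mem_filter.2 ⟨b1, hlt⟩
  rw [card_erase_of_mem hmem] at c4
  omega

theorem one_change {w : ℕ} {N N' : Finset ℤ} {a b : ℤ} (h1 : ∀ q ∈ N, q ∉ N' → q = a)
    (h2 : ∀ q ∈ N', q ∉ N → q = b) : (Top w N \ Top w N').card ≤ 1 := by
  rw [card_le_one]
  intro q hq q' hq'
  rcases lt_trichotomy q q' with h | h | h
  · exact absurd h (one_change_aux h1 h2 hq hq')
  · exact h
  · exact absurd h (one_change_aux h1 h2 hq' hq)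

/-- the outermost occurrences of the arcs below `v` -/
def R (v : ℤ) (L : Finset ℤ) : Finset ℤ :=
  L.filter fun q => (q.natAbs : ℤ) < v ∧ (q < 0 → -q ∉ L)

theorem mem_R {v : ℤ} {L : Finset ℤ} {q : ℤ} :
    q ∈ R v L ↔ q ∈ L ∧ (q.natAbs : ℤ) < v ∧ (q < 0 → -q ∉ L) := by
  unfold R; rw [mem_filter]

/-- the width of the window of `v` -/
def wd (k : ℕ) (n v : ℤ) : ℕ := k + 1 - (n - v).toNat

/-- the window of `v` -/
def W (k : ℕ) (n v : ℤ) (L : Finset ℤ) : Finset ℤ := Top (wd k n v) (R v L)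

theorem natAbs_inj_R {v : ℤ} {L : Finset ℤ} {q q' : ℤ} (h : q ∈ R v L) (h' : q' ∈ R v L)
    (he : q.natAbs = q'.natAbs) : q = q' := by
  rw [mem_R] at h h'
  by_contra hne
  rcases lt_or_ge q 0 with h0 | h0
  · apply h.2.2 h0
    have : -q = q' := by omega
    rw [this]; exact h'.1
  · apply h'.2.2 (by omega)
    have : -q' = q := by omega
    rw [this]; exact h.1

/-- the outermost occurrence of a present arc -/
theorem exists_R {v : ℤ} {L : Finset ℤ} {q : ℤ} (h : q ∈ L) (hq : (q.natAbs : ℤ) < v) :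
    ∃ r ∈ R v L, q ≤ r ∧ r.natAbs = q.natAbs := by
  by_cases h0 : q < 0 ∧ -q ∈ L
  · exact ⟨-q, mem_R.2 ⟨h0.2, by omega, by omega⟩, by omega, by omega⟩
  · exact ⟨q, mem_R.2 ⟨h, hq, fun h1 h2 => h0 ⟨h1, h2⟩⟩, le_rfl, rfl⟩

theorem card_R {k : ℕ} {n v : ℤ} {L : Finset ℤ} (hL : ∀ q ∈ L, (q.natAbs : ℤ) ≤ n)
    (hv : v ≤ n) (hc : k + 2 ≤ (L.image Int.natAbs).card) : wd k n v ≤ (R v L).card := by
  classical
  have hs : L.image Int.natAbs ⊆ (R v L).image Int.natAbs ∪ (Icc v n).image Int.natAbs := by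
    intro y hy
    rw [mem_image] at hy
    obtain ⟨q, hq, rfl⟩ := hy
    rw [mem_union, mem_image, mem_image]
    by_cases h : (q.natAbs : ℤ) < v
    · obtain ⟨r, hr, _, hre⟩ := exists_R hq h
      exact Or.inl ⟨r, hr, hre⟩
    · right
      exact ⟨q.natAbs, mem_Icc.2 ⟨by omega, hL q hq⟩, by omega⟩
  have h1 := (card_le_card hs).trans (card_union_le _ _)
  have h2 := card_image_le (s := R v L) (f := Int.natAbs)
  have h3 := card_image_le (s := Icc v n) (f := Int.natAbs)
  rw [Int.card_Icc] at h3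
  unfold wd
  omega

theorem W_card {k : ℕ} {n v : ℤ} {L : Finset ℤ} (hL : ∀ q ∈ L, (q.natAbs : ℤ) ≤ n)
    (hv : v ≤ n) (hc : k + 2 ≤ (L.image Int.natAbs).card) : (W k n v L).card = wd k n v := by
  unfold W
  rw [card_Top]
  exact min_eq_left (card_R hL hv hc)

theorem mem_W {k : ℕ} {n v : ℤ} {L : Finset ℤ} {q : ℤ} (h : q ∈ W k n v L) :
    q ∈ L ∧ (q.natAbs : ℤ) < v ∧ (q < 0 → -q ∉ L) := by
  unfold W at h
  exact mem_R.1 (mem_Top.1 h).1

theorem W_vis {k : ℕ} {n v : ℤ} {L : Finset ℤ} {q : ℤ} (h : q ∈ W k n v L) :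
    (arcs L q v).card ≤ k := by
  classical
  have hm := mem_W h
  unfold W at h
  have hc := (mem_Top.1 h).2
  have hs : arcs L q v ⊆ ((R v L).filter (q < ·)).image Int.natAbs := by
    intro y hy
    obtain ⟨⟨r, r1, r2, r3, r4⟩, r5, r6⟩ := mem_arcs.1 hy
    obtain ⟨r', hr', h1, h2⟩ := exists_R (v := v) r1 (by omega)
    rw [mem_image]
    exact ⟨r', mem_filter.2 ⟨hr', by omega⟩, by rw [h2, r4]⟩
  have h1 := (card_le_card hs).trans card_image_le
  have h2 : wd k n v ≤ k + 1 := by unfold wd; omega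
  omega

theorem W_one_insert {k : ℕ} {n v p : ℤ} {L : Finset ℤ} :
    (W k n v L \ W k n v (insert p L)).card ≤ 1 := by
  classical
  apply one_change (a := -p) (b := p)
  · intro q h1 h2
    rw [mem_R] at h1 h2
    by_contra hne
    apply h2
    refine ⟨mem_insert_of_mem h1.1, h1.2.1, fun h0 h => ?_⟩
    rcases mem_insert.1 h with h | h
    · omega
    · exact h1.2.2 h0 h
  · intro q h1 h2
    rw [mem_R] at h1 h2
    by_contra hne
    apply h2
    refine ⟨(mem_insert.1 h1.1).resolve_left hne, h1.2.1, fun h0 h => ?_⟩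
    exact h1.2.2 h0 (mem_insert_of_mem h)

theorem W_one_erase {k : ℕ} {n v p : ℤ} {L : Finset ℤ} :
    (W k n v (insert p L) \ W k n v L).card ≤ 1 := by
  classical
  apply one_change (a := p) (b := -p)
  · intro q h1 h2
    rw [mem_R] at h1 h2
    by_contra hne
    apply h2
    refine ⟨(mem_insert.1 h1.1).resolve_left hne, h1.2.1, fun h0 h => ?_⟩
    exact h1.2.2 h0 (mem_insert_of_mem h)
  · intro q h1 h2
    rw [mem_R] at h1 h2
    by_contra hne
    apply h2
    refine ⟨mem_insert_of_mem h1.1, h1.2.1, fun h0 h => ?_⟩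
    rcases mem_insert.1 h with h | h
    · omega
    · exact h1.2.2 h0 h

theorem W_stable {k : ℕ} {n v p : ℤ} {L : Finset ℤ}
    (hL : ∀ q ∈ L, (q.natAbs : ℤ) ≤ n) (hvn : v ≤ n) (hvL : v ∉ L)
    (hne : W k n v L ≠ W k n v (insert p L)) :
    (p.natAbs : ℤ) < v ∧ dd L p + ((Icc (v + 1) n).filter (· ∉ L)).card ≤ k := by
  classical
  have hpv : (p.natAbs : ℤ) < v := by
    by_contra hpv
    apply hne
    unfold W
    congr 1
    ext q
    rw [mem_R, mem_R]
    constructor
    · rintro ⟨h1, h2, h3⟩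
      refine ⟨mem_insert_of_mem h1, h2, fun h0 h => ?_⟩
      rcases mem_insert.1 h with h | h
      · omega
      · exact h3 h0 h
    · rintro ⟨h1, h2, h3⟩
      refine ⟨(mem_insert.1 h1).resolve_left (by rintro rfl; exact hpv h2), h2, fun h0 h => ?_⟩
      exact h3 h0 (mem_insert_of_mem h)
  refine ⟨hpv, ?_⟩
  by_contra hk
  apply hne
  unfold W
  apply Top_agree (p := p)
  · intro q hq
    rw [mem_R, mem_R]
    constructor
    · rintro ⟨h1, h2, h3⟩
      refine ⟨mem_insert_of_mem h1, h2, fun h0 h => ?_⟩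
      rcases mem_insert.1 h with h | h
      · omega
      · exact h3 h0 h
    · rintro ⟨h1, h2, h3⟩
      refine ⟨(mem_insert.1 h1).resolve_left (by rintro rfl; exact lt_irrefl _ hq), h2,
        fun h0 h => ?_⟩
      exact h3 h0 (mem_insert_of_mem h)
  · have hs : ((L.filter (p < ·)).image Int.natAbs).filter (· ≠ p.natAbs) ⊆
        ((R v L).filter (p < ·)).image Int.natAbs ∪
          ((Icc (v + 1) n).filter (· ∈ L)).image Int.natAbs := by
      intro y hy
      rw [mem_above] at hy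
      obtain ⟨⟨q, h1, h2, rfl⟩, h3⟩ := hy
      rw [mem_union, mem_image, mem_image]
      by_cases h : (q.natAbs : ℤ) < v
      · obtain ⟨r, hr, hqr, hre⟩ := exists_R h1 h
        exact Or.inl ⟨r, mem_filter.2 ⟨hr, by omega⟩, hre⟩
      · right
        have hqv : q ≠ v := by rintro rfl; exact hvL h1
        have := hL q h1
        exact ⟨q, mem_filter.2 ⟨mem_Icc.2 ⟨by omega, by omega⟩, h1⟩, rfl⟩
    have h1 := (card_le_card hs).trans (card_union_le _ _)
    have h2 := card_image_le (s := (R v L).filter (p < ·)) (f := Int.natAbs)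
    have h3 := card_image_le (s := (Icc (v + 1) n).filter (· ∈ L)) (f := Int.natAbs)
    have h4 := card_filter_add_card_filter_not (s := Icc (v + 1) n) (· ∈ L)
    rw [Int.card_Icc] at h4
    have h5 : dd L p = (((L.filter (p < ·)).image Int.natAbs).filter (· ≠ p.natAbs)).card := rfl
    unfold wd
    omega

theorem toggle_bound {k : ℕ} {n p : ℤ} {L : Finset ℤ}
    (hL : ∀ q ∈ L, (q.natAbs : ℤ) ≤ n) :
    (if 0 < p then wd k n p else 0) + ((Icc 1 n).filter fun v =>
      v ∉ insert p L ∧ W k n v L ≠ W k n v (insert p L)).card ≤ k + 1 - dd L p := by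
  classical
  set Ch := (Icc 1 n).filter fun v =>
      v ∉ insert p L ∧ W k n v L ≠ W k n v (insert p L) with hCh
  have hst : ∀ v ∈ Ch, (1 ≤ v ∧ v ≤ n) ∧ v ∉ L ∧ (p.natAbs : ℤ) < v ∧
      dd L p + ((Icc (v + 1) n).filter (· ∉ L)).card ≤ k := by
    intro v hv
    rw [hCh, mem_filter, mem_Icc, mem_insert, not_or] at hv
    exact ⟨hv.1, hv.2.1.2, W_stable hL hv.1.2 hv.2.1.2 hv.2.2⟩
  have hA : Ch.card = 0 ∨ Ch.card + dd L p ≤ k + 1 := by
    rcases Ch.eq_empty_or_nonempty with h | h
    · left; rw [h, card_empty]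
    · right
      have hm := min'_mem Ch h
      obtain ⟨m1, m2, m3, m4⟩ := hst _ hm
      have hs : Ch.erase (Ch.min' h) ⊆ (Icc (Ch.min' h + 1) n).filter (· ∉ L) := by
        intro v hv
        rw [mem_erase] at hv
        have := min'_le Ch v hv.2
        obtain ⟨v1, v2, v3, v4⟩ := hst _ hv.2
        exact mem_filter.2 ⟨mem_Icc.2 ⟨by have := hv.1; omega, v1.2⟩, v2⟩
      have := card_le_card hs
      rw [card_erase_of_mem hm] at this
      omega
  split_ifs with h0
  · have hdis : Disjoint Ch (L.filter (p < ·)) := by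
      rw [disjoint_left]
      intro v hv hv'
      exact (hst v hv).2.1 (mem_filter.1 hv').1
    have hs : Ch ∪ L.filter (p < ·) ⊆ Icc (p + 1) n := by
      intro v hv
      rw [mem_Icc]
      rcases mem_union.1 hv with hv | hv
      · obtain ⟨v1, v2, v3, v4⟩ := hst _ hv
        omega
      · rw [mem_filter] at hv
        have := hL v hv.1
        omega
    have h1 := card_le_card hs
    rw [card_union_of_disjoint hdis, ← dd_pos h0, Int.card_Icc] at h1
    unfold wd
    omega
  · omega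

theorem seq_persist {α : Type} [DecidableEq α] (F : ℕ → Finset α) (m : ℕ)
    (h : ∀ i < m, (F i \ F (i + 1)).card ≤ 1) :
    (F 0).card ≤ ((F 0).filter fun q => ∀ i ≤ m, q ∈ F i).card +
      ((range m).filter fun i => F i ≠ F (i + 1)).card := by
  classical
  induction m with
  | zero =>
    rw [filter_true_of_mem]
    · exact Nat.le_add_right _ _
    · intro q hq i hi
      rw [Nat.le_zero.1 hi]; exact hq
  | succ m ih =>
    have ih' := ih fun i hi => h i (Nat.lt_succ_of_lt hi)
    rw [range_add_one, filter_insert]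
    by_cases he : F m = F (m + 1)
    · rw [if_neg (by simpa using he)]
      refine ih'.trans (Nat.add_le_add_right (card_le_card ?_) _)
      intro q hq
      rw [mem_filter] at hq ⊢
      refine ⟨hq.1, fun i hi => ?_⟩
      rcases Nat.lt_or_ge m i with h1 | h1
      · have : i = m + 1 := by omega
        rw [this, ← he]; exact hq.2 m le_rfl
      · exact hq.2 i h1
    · rw [if_pos he, card_insert_of_notMem (by simp)]
      have hs : ((F 0).filter fun q => ∀ i ≤ m, q ∈ F i) ⊆
          ((F 0).filter fun q => ∀ i ≤ m + 1, q ∈ F i) ∪ (F m \ F (m + 1)) := by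
        intro q hq
        rw [mem_filter] at hq
        rw [mem_union, mem_filter, mem_sdiff]
        by_cases hm : q ∈ F (m + 1)
        · left
          refine ⟨hq.1, fun i hi => ?_⟩
          rcases Nat.lt_or_ge m i with h1 | h1
          · have : i = m + 1 := by omega
            rw [this]; exact hm
          · exact hq.2 i h1
        · right
          exact ⟨hq.2 m le_rfl, hm⟩
      have h1 := (card_le_card hs).trans (card_union_le _ _)
      have h2 := h m (Nat.lt_succ_self m)
      omega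

end Pool.Agent.P8H53.Arc
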