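import Pool.Agent.P8H53.Arc.Events
import Pool.Agent.P8H53.Arc.Windows

set_option autoImplicit false

/-! The cyclic sequence of lines. -/

namespace Pool.Agent.P8H53.Arc

open Finset

inductive Step (L L₂ : Finset ℤ) : Prop
  | idle : L₂ = L → Step L L₂
  | ins (p : ℤ) : p ∉ L → L₂ = insert p L → Step L L₂
  | del (p : ℤ) : p ∉ L₂ → L = insert p L₂ → Step L L₂

/-- a rotating line: after `M` steps it has made a half turn -/
structure Config (M : ℕ) (n : ℤ) (Q : ℤ → Finset ℤ) : Prop where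
  two : 2 ≤ M
  mir : ∀ j, Q (j + M) = ng (Q j)
  rng : ∀ j, ∀ q ∈ Q j, q ≠ 0 ∧ (q.natAbs : ℤ) ≤ n
  step : ∀ j, Step (Q j) (Q (j + 1))
  one : ∀ x, 0 < x → ∀ i i', x ∉ Q i → x ∈ Q (i + 1) → x ∉ Q i' → x ∈ Q (i' + 1) →
    ((2 * M : ℕ) : ℤ) ∣ i - i'

variable {M : ℕ} {n : ℤ} {Q : ℤ → Finset ℤ}

theorem Config.per (hQ : Config M n Q) : Function.Periodic Q ((2 * M : ℕ) : ℤ) := by
  intro j
  have h : j + ((2 * M : ℕ) : ℤ) = j + M + M := by push_cast; ring
  rw [h, hQ.mir, hQ.mir, ng_ng]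

/-- any time is equivalent to one in the window after `s` -/
theorem Config.reduce (hQ : Config M n Q) (s j : ℤ) : ∃ j', s < j' ∧ j' ≤ s + (2 * M : ℕ) ∧
    ((2 * M : ℕ) : ℤ) ∣ j - j' ∧ ∀ i, Q (j' + i) = Q (j + i) := by
  have hM := hQ.two
  set T : ℤ := ((2 * M : ℕ) : ℤ) with hT
  have hT0 : 0 < T := by omega
  have h1 := Int.emod_nonneg (j - s - 1) hT0.ne'
  have h2 := Int.emod_lt_of_pos (j - s - 1) hT0
  have h3 := Int.emod_add_mul_ediv (j - s - 1) T
  refine ⟨s + 1 + (j - s - 1) % T, by omega, by omega, ⟨(j - s - 1) / T, by linarith⟩, ?_⟩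
  intro i
  have h4 := hQ.per.int_mul ((j - s - 1) / T) (s + 1 + (j - s - 1) % T + i)
  rw [← h4]
  congr 1
  rw [Int.cast_id]
  linarith [mul_comm T ((j - s - 1) / T)]

theorem rise {P : ℤ → Prop} {a b : ℤ} (hab : a ≤ b) (ha : ¬ P a) (hb : P b) :
    ∃ i, a ≤ i ∧ i < b ∧ ¬ P i ∧ P (i + 1) := by
  obtain ⟨m, rfl⟩ : ∃ m : ℕ, b = a + m := ⟨(b - a).toNat, by omega⟩
  induction m with
  | zero => exact absurd (by simpa using hb) ha
  | succ m ih =>
    by_cases h : P (a + m)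
    · obtain ⟨i, h1, h2, h3⟩ := ih (by omega) h
      exact ⟨i, h1, by push_cast; omega, h3⟩
    · refine ⟨a + m, by omega, by push_cast; omega, h, ?_⟩
      have : a + (m : ℤ) + 1 = a + ((m + 1 : ℕ) : ℤ) := by push_cast; ring
      rw [this]; exact hb

theorem sum_shift (f : ℤ → ℕ) (T : ℕ) (hf : ∀ j, f (j + T) = f j) (s : ℤ) :
    ∑ i ∈ range T, f (s + i) = ∑ i ∈ range T, f i := by
  have key : ∀ s : ℤ, ∑ i ∈ range T, f (s + 1 + i) = ∑ i ∈ range T, f (s + i) := by
    intro s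
    have h1 := sum_range_succ (fun i : ℕ => f (s + i)) T
    have h2 := sum_range_succ' (fun i : ℕ => f (s + i)) T
    rw [h1] at h2
    have h3 : ∑ i ∈ range T, f (s + 1 + i) = ∑ i ∈ range T, f (s + ((i + 1 : ℕ) : ℤ)) := by
      apply sum_congr rfl
      intro i _
      congr 1
      push_cast; ring
    rw [h3]
    have h4 : f (s + (T : ℤ)) = f (s + ((0 : ℕ) : ℤ)) := by
      rw [hf]; simp
    omega
  have key2 : ∀ m : ℕ, ∀ s : ℤ, ∑ i ∈ range T, f (s + m + i) = ∑ i ∈ range T, f (s + i) := by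
    intro m
    induction m with
    | zero => intro s; simp
    | succ m ih =>
      intro s
      rw [← ih s, ← key (s + m)]
      apply sum_congr rfl
      intro i _
      congr 1
      push_cast; ring
  rcases Int.le_total 0 s with h | h
  · obtain ⟨m, rfl⟩ := Int.eq_ofNat_of_zero_le h
    have := key2 m 0
    simpa using this
  · obtain ⟨m, hm⟩ := Int.eq_ofNat_of_zero_le (show 0 ≤ -s by omega)
    have := key2 m s
    rw [← this]
    apply sum_congr rfl
    intro i _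
    congr 1
    omega

open Classical in
/-- number of times `0 ≤ i < T` with `P i` -/
noncomputable def cnt (T : ℕ) (P : ℤ → Prop) : ℕ := ((range T).filter fun i : ℕ => P i).card

theorem cnt_eq_sum (T : ℕ) (P : ℤ → Prop) [DecidablePred P] :
    cnt T P = ∑ i ∈ range T, if P (i : ℤ) then 1 else 0 := by
  unfold cnt; rw [card_filter]
  apply sum_congr rfl
  intro i _
  congr

theorem cnt_le_one {T : ℕ} {P : ℤ → Prop} (h : ∀ a b : ℕ, a < T → b < T → P a → P b → a = b) :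
    cnt T P ≤ 1 := by
  classical
  unfold cnt
  rw [card_le_one]
  intro a ha b hb
  rw [mem_filter, mem_range] at ha hb
  exact h a b ha.1 hb.1 ha.2 hb.2

theorem exists_of_cnt {T : ℕ} {P : ℤ → Prop} (h : cnt T P ≠ 0) : ∃ i : ℤ, P i := by
  classical
  unfold cnt at h
  obtain ⟨i, hi⟩ := card_ne_zero.1 h
  rw [mem_filter] at hi
  exact ⟨i, hi.2⟩

theorem le_cnt {T : ℕ} {P : ℤ → Prop} {A : Finset ℕ} (h : ∀ i ∈ A, i < T ∧ P i) :
    A.card ≤ cnt T P := by
  classical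
  unfold cnt
  apply card_le_card
  intro i hi
  rw [mem_filter, mem_range]
  exact h i hi

theorem cnt_shift {P : ℤ → Prop} {T : ℕ} (hP : ∀ j, P (j + T) ↔ P j) (s : ℤ) :
    cnt T (fun j => P (s + j)) = cnt T P := by
  classical
  rw [cnt_eq_sum, cnt_eq_sum]
  exact sum_shift (fun j => if P j then 1 else 0) T (fun j => by simp only [hP]) s

/-! ### starts and ends -/

/-- number of starts of `x` in a period -/
noncomputable def st (Q : ℤ → Finset ℤ) (T : ℕ) (x : ℤ) : ℕ :=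
  cnt T fun i => x ∉ Q i ∧ x ∈ Q (i + 1)

noncomputable def en (Q : ℤ → Finset ℤ) (T : ℕ) (x : ℤ) : ℕ :=
  cnt T fun i => x ∈ Q i ∧ x ∉ Q (i + 1)

theorem Config.st_le_one (hQ : Config M n Q) {x : ℤ} (hx : 0 < x) : st Q (2 * M) x ≤ 1 := by
  unfold st
  apply cnt_le_one
  intro a b ha hb ha' hb'
  obtain ⟨c, hc⟩ := hQ.one x hx a b ha'.1 ha'.2 hb'.1 hb'.2
  have h1 : c < 1 := by
    by_contra h
    have : ((2 * M : ℕ) : ℤ) * 1 ≤ ((2 * M : ℕ) : ℤ) * c := by
      apply mul_le_mul_of_nonneg_left (by omega) (by omega)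
    omega
  have h2 : -1 < c := by
    by_contra h
    have : ((2 * M : ℕ) : ℤ) * c ≤ ((2 * M : ℕ) : ℤ) * (-1) := by
      apply mul_le_mul_of_nonneg_left (by omega) (by omega)
    omega
  have h3 : c = 0 := by omega
  subst h3
  omega

theorem Config.en_eq_st (hQ : Config M n Q) (x : ℤ) : en Q (2 * M) x = st Q (2 * M) x := by
  classical
  unfold st en
  rw [cnt_eq_sum, cnt_eq_sum]
  have h1 := sum_shift (fun j => if x ∈ Q j then 1 else 0) (2 * M)
    (fun j => by simp only [hQ.per j]) 1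
  have h2 : (∑ i ∈ range (2 * M), if x ∈ Q (i : ℤ) ∧ x ∉ Q ((i : ℤ) + 1) then 1 else 0) +
      (∑ i ∈ range (2 * M), if x ∈ Q (1 + (i : ℤ)) then 1 else 0) =
      (∑ i ∈ range (2 * M), if x ∉ Q (i : ℤ) ∧ x ∈ Q ((i : ℤ) + 1) then 1 else 0) +
      (∑ i ∈ range (2 * M), if x ∈ Q (i : ℤ) then 1 else 0) := by
    rw [← sum_add_distrib, ← sum_add_distrib]
    apply sum_congr rfl
    intro i _
    rw [add_comm 1 (i : ℤ)]
    by_cases a : x ∈ Q (i : ℤ) <;> by_cases b : x ∈ Q ((i : ℤ) + 1) <;> simp [a, b]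
  omega

theorem exists_start {T : ℕ} {x : ℤ} (h : st Q T x ≠ 0) :
    ∃ s : ℤ, x ∉ Q s ∧ x ∈ Q (s + 1) := exists_of_cnt h

theorem Config.interval (hQ : Config M n Q) {x s : ℤ} (hx : 0 < x) (h1 : x ∉ Q s)
    (h2 : x ∈ Q (s + 1)) : ∃ e, s < e ∧ e < s + (2 * M : ℕ) ∧
      (∀ j, s < j → j ≤ e → x ∈ Q j) ∧ (∀ j, e < j → j ≤ s + (2 * M : ℕ) → x ∉ Q j) := by
  classical
  have hM := hQ.two
  have hex : ∃ m : ℕ, x ∉ Q (s + 1 + m) := by
    refine ⟨2 * M - 1, ?_⟩
    have : s + 1 + ((2 * M - 1 : ℕ) : ℤ) = s + ((2 * M : ℕ) : ℤ) := by omega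
    rw [this, hQ.per s]
    exact h1
  have hm := Nat.find_spec hex
  set m := Nat.find hex with hmdef
  have hm0 : m ≠ 0 := by
    intro h0
    rw [h0] at hm
    apply hm
    simpa using h2
  have hmT : m ≤ 2 * M - 1 := by
    apply Nat.find_min' hex
    have : s + 1 + ((2 * M - 1 : ℕ) : ℤ) = s + ((2 * M : ℕ) : ℤ) := by omega
    rw [this, hQ.per s]
    exact h1
  refine ⟨s + m, by omega, by omega, ?_, ?_⟩
  · intro j hj1 hj2
    by_contra hj
    apply Nat.find_min hex (m := (j - s - 1).toNat) (by omega)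
    have : s + 1 + ((j - s - 1).toNat : ℤ) = j := by omega
    rw [this]
    exact hj
  · intro j hj1 hj2 hj
    have hstart : s + 1 + (m : ℤ) ≤ j := by omega
    obtain ⟨i, i1, i2, i3, i4⟩ := rise (P := fun j => x ∈ Q j) hstart hm hj
    obtain ⟨c, hc⟩ := hQ.one x hx i s i3 i4 h1 h2
    have c1 : 0 < c := by
      by_contra h
      have : ((2 * M : ℕ) : ℤ) * c ≤ ((2 * M : ℕ) : ℤ) * 0 := by
        apply mul_le_mul_of_nonneg_left (by omega) (by omega)
      omega
    have : ((2 * M : ℕ) : ℤ) * 1 ≤ ((2 * M : ℕ) : ℤ) * c := by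
      apply mul_le_mul_of_nonneg_left (by omega) (by omega)
    omega

/-! ### windows -/

/-- number of changes of the window of `v` while `v` is absent -/
noncomputable def Nv (k : ℕ) (n : ℤ) (Q : ℤ → Finset ℤ) (T : ℕ) (v : ℤ) : ℕ :=
  cnt T fun i => v ∉ Q i ∧ v ∉ Q (i + 1) ∧ W k n v (Q i) ≠ W k n v (Q (i + 1))

open Classical in
/-- the persistent part of the window of `v` -/
noncomputable def Zv (k : ℕ) (n : ℤ) (Q : ℤ → Finset ℤ) (v : ℤ) : Finset ℤ :=
  (Icc (-n) n).filter fun q => ∀ j, v ∉ Q j → q ∈ W k n v (Q j)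

theorem mem_Zv {k : ℕ} {v q : ℤ} : q ∈ Zv k n Q v ↔
    q ∈ Icc (-n) n ∧ ∀ j, v ∉ Q j → q ∈ W k n v (Q j) := by
  classical
  unfold Zv; rw [mem_filter]

theorem Step.W_one {k : ℕ} {v : ℤ} {L L₂ : Finset ℤ} (h : Step L L₂) :
    (W k n v L \ W k n v L₂).card ≤ 1 := by
  classical
  rcases h with h | ⟨p, _, h⟩ | ⟨p, _, h⟩
  · rw [h]; simp
  · rw [h]; exact W_one_insert
  · rw [h]; exact W_one_erase

theorem Config.Z_card (hQ : Config M n Q) {k : ℕ}
    (hk : ∀ j, k + 2 ≤ ((Q j).image Int.natAbs).card) {v : ℤ} (hv : 0 < v) (hvn : v ≤ n)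
    (hst : st Q (2 * M) v ≠ 0) : wd k n v ≤ (Zv k n Q v).card + Nv k n Q (2 * M) v := by
  classical
  obtain ⟨s, s1, s2⟩ := exists_start hst
  obtain ⟨e, e1, e2, e3, e4⟩ := hQ.interval hv s1 s2
  set m : ℕ := (s + (2 * M : ℕ) - e - 1).toNat with hm
  set F : ℕ → Finset ℤ := fun i => W k n v (Q (e + 1 + i)) with hF
  have h1 := seq_persist F m (by
    intro i _
    have h := (hQ.step (e + 1 + i)).W_one (n := n) (k := k) (v := v)
    have he : e + 1 + (i : ℤ) + 1 = e + 1 + ((i + 1 : ℕ) : ℤ) := by push_cast; ring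
    rw [he] at h
    exact h)
  have h2 : (F 0).card = wd k n v := W_card (fun q hq => (hQ.rng _ q hq).2) hvn (hk _)
  have h3 : ((F 0).filter fun q => ∀ i ≤ m, q ∈ F i).card ≤ (Zv k n Q v).card := by
    apply card_le_card
    intro q hq
    rw [mem_filter] at hq
    rw [mem_Zv]
    constructor
    · have := (hQ.rng _ q (mem_W hq.1).1).2
      rw [mem_Icc]; omega
    · intro j hj
      obtain ⟨j', j1, j2, _, j4⟩ := hQ.reduce s j
      have j5 := j4 0
      rw [add_zero, add_zero] at j5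
      have j6 : e < j' := by
        by_contra h
        exact hj (by rw [← j5]; exact e3 j' j1 (by omega))
      have := hq.2 (j' - e - 1).toNat (by omega)
      rw [hF] at this
      simp only at this
      have he : e + 1 + ((j' - e - 1).toNat : ℤ) = j' := by omega
      rw [he, j5] at this
      exact this
  have h4 : ((range m).filter fun i => F i ≠ F (i + 1)).card ≤ Nv k n Q (2 * M) v := by
    unfold Nv
    rw [← cnt_shift (P := fun j => v ∉ Q j ∧ v ∉ Q (j + 1) ∧ W k n v (Q j) ≠ W k n v (Q (j + 1)))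
      (T := 2 * M) (fun j => by
        have h := hQ.per (j + 1)
        have h' : j + ((2 * M : ℕ) : ℤ) + 1 = j + 1 + ((2 * M : ℕ) : ℤ) := by ring
        rw [hQ.per j, h', h]) (e + 1)]
    apply le_cnt
    intro i hi
    rw [mem_filter, mem_range] at hi
    have he : e + 1 + ((i + 1 : ℕ) : ℤ) = e + 1 + (i : ℤ) + 1 := by push_cast; ring
    refine ⟨by omega, e4 _ (by omega) (by omega), e4 _ (by omega) (by omega), ?_⟩
    have := hi.2
    rw [hF] at this
    simp only [he] at this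
    exact this
  omega

end Pool.Agent.P8H53.Arc
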