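import Pool.Agent.P8H53.Arc.Normal

set_option autoImplicit false

/-! From a family of time intervals to a rotating line. -/

namespace Pool.Agent.P8H53.Arc

open Finset

/-- ranking a finite family of reals -/
theorem exists_rank {α : Type} [Fintype α] {m : ℕ} (hm : Fintype.card α = m) (f : α → ℝ) :
    ∃ rk : α → ℕ, (∀ a, rk a < m) ∧ Function.Injective rk ∧ (∀ i < m, ∃ a, rk a = i) ∧
      ∀ a b, rk a ≤ rk b → f a ≤ f b := by
  classical
  let eq : α ≃ Fin m := Fintype.equivFinOfCardEq hm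
  let g : Fin m → ℝ := fun i => f (eq.symm i)
  let σ := Tuple.sort g
  have hmono : Monotone (g ∘ σ) := Tuple.monotone_sort g
  refine ⟨fun a => (σ.symm (eq a)).val, fun a => (σ.symm (eq a)).isLt, ?_, ?_, ?_⟩
  · intro a b h
    exact eq.injective (σ.symm.injective (Fin.ext h))
  · intro i hi
    refine ⟨eq.symm (σ ⟨i, hi⟩), ?_⟩
    simp
  · intro a b h
    have := hmono (show σ.symm (eq a) ≤ σ.symm (eq b) from h)
    simpa [g] using this

section

variable {n : ℕ} (τ : Fin n × Bool → ℝ) (rk : Fin n × Bool → ℕ) (ρ : Fin n → ℕ)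

/-- integer time of an event -/
noncomputable def J (e : Fin n × Bool) : ℤ := ⌊τ e⌋ * ((2 * n : ℕ) : ℤ) + rk e

/-- the time of a direction -/
noncomputable def jt (t : ℝ) : ℤ := ⌊t⌋ * ((2 * n : ℕ) : ℤ) +
  ((univ.filter fun e : Fin n × Bool => Int.fract (τ e) < Int.fract t).card : ℤ)

theorem jt_add_one (t : ℝ) : jt τ (t + 1) = jt τ t + ((2 * n : ℕ) : ℤ) := by
  unfold jt
  rw [Int.floor_add_one, Int.fract_add_one]
  ring

variable {τ rk ρ}

theorem J_inj (h1 : ∀ e, rk e < 2 * n) (h2 : Function.Injective rk) {e e' : Fin n × Bool}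
    (h : ((2 * n : ℕ) : ℤ) ∣ J τ rk e - J τ rk e') : e = e' := by
  apply h2
  have h3 : ((2 * n : ℕ) : ℤ) ∣ (rk e : ℤ) - rk e' := by
    unfold J at h
    have e1 : (rk e : ℤ) - rk e' = ⌊τ e⌋ * ((2 * n : ℕ) : ℤ) + rk e -
      (⌊τ e'⌋ * ((2 * n : ℕ) : ℤ) + rk e') - (⌊τ e⌋ - ⌊τ e'⌋) * ((2 * n : ℕ) : ℤ) := by ring
    rw [e1]
    exact dvd_sub h (dvd_mul_left _ _)
  have h4 := h1 e
  have h5 := h1 e'
  rcases lt_trichotomy (rk e) (rk e') with h6 | h6 | h6
  · exfalso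
    exact no_dvd h3 (dvd_zero _) (by omega) (by omega)
  · exact h6
  · exfalso
    exact no_dvd (dvd_zero _) h3 (by omega) (by omega)

theorem J_lt (h1 : ∀ e, rk e < 2 * n) (h3 : ∀ i < 2 * n, ∃ a, rk a = i)
    (h4 : ∀ a b, rk a ≤ rk b → Int.fract (τ a) ≤ Int.fract (τ b)) {e : Fin n × Bool} {m : ℤ}
    {t : ℝ} (h : τ e + m < t) : J τ rk e + m * ((2 * n : ℕ) : ℤ) < jt τ t := by
  classical
  have h1e := h1 e
  have h1e' : (rk e : ℤ) < ((2 * n : ℕ) : ℤ) := by exact_mod_cast h1e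
  have hfl : ⌊τ e⌋ + m ≤ ⌊t⌋ := by
    rw [← Int.floor_add_intCast]
    exact Int.floor_le_floor h.le
  unfold J jt
  rcases hfl.lt_or_eq with hlt | heq
  · have : (⌊τ e⌋ + m + 1) * ((2 * n : ℕ) : ℤ) ≤ ⌊t⌋ * ((2 * n : ℕ) : ℤ) :=
      mul_le_mul_of_nonneg_right (by omega) (by omega)
    nlinarith
  · have hf : Int.fract (τ e) < Int.fract t := by
      have e1 := Int.self_sub_floor (τ e)
      have e2 := Int.self_sub_floor t
      have e3 : ((⌊τ e⌋ + m : ℤ) : ℝ) = ⌊t⌋ := by exact_mod_cast heq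
      push_cast at e3
      linarith
    have hc : rk e + 1 ≤ (univ.filter fun e : Fin n × Bool =>
        Int.fract (τ e) < Int.fract t).card := by
      have hs : range (rk e + 1) ⊆ (univ.filter fun e : Fin n × Bool =>
          Int.fract (τ e) < Int.fract t).image rk := by
        intro i hi
        rw [mem_range] at hi
        obtain ⟨a, ha⟩ := h3 i (by omega)
        rw [mem_image]
        refine ⟨a, ?_, ha⟩
        rw [mem_filter]
        exact ⟨mem_univ _, (h4 a e (by omega)).trans_lt hf⟩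
      have := (card_le_card hs).trans card_image_le
      rwa [card_range] at this
    rw [← heq]
    have : ((rk e : ℤ) + 1) ≤ ((univ.filter fun e : Fin n × Bool =>
        Int.fract (τ e) < Int.fract t).card : ℤ) := by exact_mod_cast hc
    nlinarith

theorem le_J (h2 : Function.Injective rk)
    (h4 : ∀ a b, rk a ≤ rk b → Int.fract (τ a) ≤ Int.fract (τ b)) {e : Fin n × Bool} {m : ℤ}
    {t : ℝ} (h : t < τ e + m) : jt τ t ≤ J τ rk e + m * ((2 * n : ℕ) : ℤ) := by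
  classical
  have hfl : ⌊t⌋ ≤ ⌊τ e⌋ + m := by
    rw [← Int.floor_add_intCast]
    exact Int.floor_le_floor h.le
  unfold J jt
  rcases hfl.lt_or_eq with hlt | heq
  · have h5 : (⌊t⌋ + 1) * ((2 * n : ℕ) : ℤ) ≤ (⌊τ e⌋ + m) * ((2 * n : ℕ) : ℤ) :=
      mul_le_mul_of_nonneg_right (by omega) (by omega)
    have h6 : (univ.filter fun e : Fin n × Bool => Int.fract (τ e) < Int.fract t).card ≤
        2 * n := by
      refine (card_filter_le _ _).trans (le_of_eq ?_)
      rw [card_univ, Fintype.card_prod, Fintype.card_fin, Fintype.card_bool, mul_comm]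
    have h7 : ((univ.filter fun e : Fin n × Bool =>
        Int.fract (τ e) < Int.fract t).card : ℤ) ≤ ((2 * n : ℕ) : ℤ) := by exact_mod_cast h6
    nlinarith
  · have hf : Int.fract t < Int.fract (τ e) := by
      have e1 := Int.self_sub_floor (τ e)
      have e2 := Int.self_sub_floor t
      have e3 : ((⌊τ e⌋ + m : ℤ) : ℝ) = ⌊t⌋ := by exact_mod_cast heq.symm
      push_cast at e3
      linarith
    have hc : (univ.filter fun e : Fin n × Bool =>
        Int.fract (τ e) < Int.fract t).card ≤ rk e := by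
      rw [← card_image_of_injective _ h2]
      have hs : (univ.filter fun e : Fin n × Bool =>
          Int.fract (τ e) < Int.fract t).image rk ⊆ range (rk e) := by
        intro i hi
        rw [mem_image] at hi
        obtain ⟨a, ha, rfl⟩ := hi
        rw [mem_filter] at ha
        rw [mem_range]
        by_contra hge
        have := h4 e a (by omega)
        linarith [ha.2]
      have := card_le_card hs
      rwa [card_range] at this
    rw [heq]
    have : ((univ.filter fun e : Fin n × Bool =>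
        Int.fract (τ e) < Int.fract t).card : ℤ) ≤ (rk e : ℤ) := by exact_mod_cast hc
    nlinarith

variable (τ rk ρ)

/-- the arc `x` is present at time `j` -/
def pres (x : Fin n) (j : ℤ) : Prop := ∃ z : ℤ,
  J τ rk (x, false) + z * ((2 * (2 * n) : ℕ) : ℤ) < j ∧
    j ≤ J τ rk (x, true) + z * ((2 * (2 * n) : ℕ) : ℤ)

open Classical in
/-- the line at time `j` -/
noncomputable def line (j : ℤ) : Finset ℤ :=
  ((univ.filter fun x => pres τ rk x j).image fun x => (ρ x : ℤ) + 1) ∪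
    ((univ.filter fun x => pres τ rk x (j + ((2 * n : ℕ) : ℤ))).image fun x => -((ρ x : ℤ) + 1))

variable {τ rk ρ}

theorem mem_line {j q : ℤ} : q ∈ line τ rk ρ j ↔ ∃ x, (q = (ρ x : ℤ) + 1 ∧ pres τ rk x j) ∨
    (q = -((ρ x : ℤ) + 1) ∧ pres τ rk x (j + ((2 * n : ℕ) : ℤ))) := by
  classical
  unfold line
  rw [mem_union, mem_image, mem_image]
  constructor
  · rintro (⟨x, hx, rfl⟩ | ⟨x, hx, rfl⟩)
    · exact ⟨x, Or.inl ⟨rfl, (mem_filter.1 hx).2⟩⟩
    · exact ⟨x, Or.inr ⟨rfl, (mem_filter.1 hx).2⟩⟩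
  · rintro ⟨x, ⟨rfl, hx⟩ | ⟨rfl, hx⟩⟩
    · exact Or.inl ⟨x, mem_filter.2 ⟨mem_univ _, hx⟩, rfl⟩
    · exact Or.inr ⟨x, mem_filter.2 ⟨mem_univ _, hx⟩, rfl⟩

theorem pos_mem_line (hρ : Function.Injective ρ) {x : Fin n} {j : ℤ} :
    (ρ x : ℤ) + 1 ∈ line τ rk ρ j ↔ pres τ rk x j := by
  rw [mem_line]
  constructor
  · rintro ⟨y, ⟨h1, h2⟩ | ⟨h1, h2⟩⟩
    · have : x = y := hρ (by omega)
      rw [this]; exact h2
    · omega
  · intro h
    exact ⟨x, Or.inl ⟨rfl, h⟩⟩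

theorem neg_mem_line (hρ : Function.Injective ρ) {x : Fin n} {j : ℤ} :
    -((ρ x : ℤ) + 1) ∈ line τ rk ρ j ↔ pres τ rk x (j + ((2 * n : ℕ) : ℤ)) := by
  rw [mem_line]
  constructor
  · rintro ⟨y, ⟨h1, h2⟩ | ⟨h1, h2⟩⟩
    · omega
    · have : x = y := hρ (by omega)
      rw [this]; exact h2
  · intro h
    exact ⟨x, Or.inr ⟨rfl, h⟩⟩

theorem pres_per {x : Fin n} {j : ℤ} :
    pres τ rk x (j + ((2 * (2 * n) : ℕ) : ℤ)) ↔ pres τ rk x j := by
  constructor
  · rintro ⟨z, h1, h2⟩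
    refine ⟨z - 1, ?_, ?_⟩ <;> nlinarith
  · rintro ⟨z, h1, h2⟩
    refine ⟨z + 1, ?_, ?_⟩ <;> nlinarith

theorem pres_start {x : Fin n} {j : ℤ} (h1 : ¬ pres τ rk x j) (h2 : pres τ rk x (j + 1)) :
    ((2 * (2 * n) : ℕ) : ℤ) ∣ j - J τ rk (x, false) := by
  obtain ⟨z, h3, h4⟩ := h2
  refine ⟨z, ?_⟩
  have h5 : ¬ J τ rk (x, false) + z * ((2 * (2 * n) : ℕ) : ℤ) < j := fun h =>
    h1 ⟨z, h, by omega⟩
  have h6 : j = J τ rk (x, false) + z * ((2 * (2 * n) : ℕ) : ℤ) := by omega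
  rw [mul_comm]
  omega

theorem pres_end {x : Fin n} {j : ℤ} (h1 : pres τ rk x j) (h2 : ¬ pres τ rk x (j + 1)) :
    ((2 * (2 * n) : ℕ) : ℤ) ∣ j - J τ rk (x, true) := by
  obtain ⟨z, h3, h4⟩ := h1
  refine ⟨z, ?_⟩
  have h5 : ¬ j + 1 ≤ J τ rk (x, true) + z * ((2 * (2 * n) : ℕ) : ℤ) := fun h =>
    h2 ⟨z, by omega, h⟩
  have h6 : j = J τ rk (x, true) + z * ((2 * (2 * n) : ℕ) : ℤ) := by omega
  rw [mul_comm]
  omega

theorem pres_change {x : Fin n} {j : ℤ} (h : ¬ (pres τ rk x j ↔ pres τ rk x (j + 1))) :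
    ∃ c, ((2 * (2 * n) : ℕ) : ℤ) ∣ j - J τ rk (x, c) := by
  by_cases h1 : pres τ rk x j
  · by_cases h2 : pres τ rk x (j + 1)
    · exact absurd ⟨fun _ => h2, fun _ => h1⟩ h
    · exact ⟨true, pres_end h1 h2⟩
  · by_cases h2 : pres τ rk x (j + 1)
    · exact ⟨false, pres_start h1 h2⟩
    · exact absurd ⟨fun h => absurd h h1, fun h => absurd h h2⟩ h

theorem step_of_unique {L L₂ : Finset ℤ}
    (h : ∀ q q', ¬ (q ∈ L ↔ q ∈ L₂) → ¬ (q' ∈ L ↔ q' ∈ L₂) → q = q') : Step L L₂ := by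
  classical
  by_cases hex : ∃ q, ¬ (q ∈ L ↔ q ∈ L₂)
  · obtain ⟨q, hq⟩ := hex
    have hrest : ∀ r, r ≠ q → (r ∈ L ↔ r ∈ L₂) := by
      intro r hr
      by_contra hc
      exact hr (h r q hc hq)
    by_cases hqL : q ∈ L
    · have hqL₂ : q ∉ L₂ := fun h' => hq ⟨fun _ => h', fun _ => hqL⟩
      refine Step.del q hqL₂ ?_
      ext r
      rw [mem_insert]
      by_cases hr : r = q
      · subst hr; simp [hqL]
      · rw [hrest r hr]; simp [hr]
    · have hqL₂ : q ∈ L₂ := by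
        by_contra h'
        exact hq ⟨fun h => absurd h hqL, fun h => absurd h h'⟩
      refine Step.ins q hqL ?_
      ext r
      rw [mem_insert]
      by_cases hr : r = q
      · subst hr; simp [hqL₂]
      · rw [hrest r hr]; simp [hr]
  · push Not at hex
    apply Step.idle
    ext q
    exact (hex q).symm

theorem line_config (hn : 0 < n) (h1 : ∀ e, rk e < 2 * n) (h2 : Function.Injective rk)
    (hρ : Function.Injective ρ) (hρn : ∀ x, ρ x < n) :
    Config (2 * n) (n : ℤ) (line τ rk ρ) := by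
  classical
  have hchange : ∀ q j, ¬ (q ∈ line τ rk ρ j ↔ q ∈ line τ rk ρ (j + 1)) →
      ∃ x c, (q = (ρ x : ℤ) + 1 ∧ ((2 * (2 * n) : ℕ) : ℤ) ∣ j - J τ rk (x, c)) ∨
        (q = -((ρ x : ℤ) + 1) ∧ ((2 * (2 * n) : ℕ) : ℤ) ∣
          j + ((2 * n : ℕ) : ℤ) - J τ rk (x, c)) := by
    intro q j h
    have hex : ∃ x, q = (ρ x : ℤ) + 1 ∨ q = -((ρ x : ℤ) + 1) := by
      by_contra hno
      push Not at hno
      apply h
      rw [mem_line, mem_line]
      constructor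
      · rintro ⟨x, ⟨h1, _⟩ | ⟨h1, _⟩⟩
        · exact absurd h1 (hno x).1
        · exact absurd h1 (hno x).2
      · rintro ⟨x, ⟨h1, _⟩ | ⟨h1, _⟩⟩
        · exact absurd h1 (hno x).1
        · exact absurd h1 (hno x).2
    obtain ⟨x, rfl | rfl⟩ := hex
    · rw [pos_mem_line hρ, pos_mem_line hρ] at h
      obtain ⟨c, hc⟩ := pres_change h
      exact ⟨x, c, Or.inl ⟨rfl, hc⟩⟩
    · rw [neg_mem_line hρ, neg_mem_line hρ] at h
      have e : j + 1 + ((2 * n : ℕ) : ℤ) = j + ((2 * n : ℕ) : ℤ) + 1 := by ring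
      rw [e] at h
      obtain ⟨c, hc⟩ := pres_change h
      exact ⟨x, c, Or.inr ⟨rfl, hc⟩⟩
  have hdd : ((2 * n : ℕ) : ℤ) ∣ ((2 * (2 * n) : ℕ) : ℤ) := ⟨2, by push_cast; ring⟩
  refine ⟨by omega, ?_, ?_, ?_, ?_⟩
  · intro j
    ext q
    rw [mem_ng, mem_line, mem_line]
    have e : j + ((2 * n : ℕ) : ℤ) + ((2 * n : ℕ) : ℤ) = j + ((2 * (2 * n) : ℕ) : ℤ) := by
      push_cast; ring
    constructor
    · rintro ⟨x, ⟨h1, h2⟩ | ⟨h1, h2⟩⟩
      · exact ⟨x, Or.inr ⟨by rw [h1], h2⟩⟩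
      · rw [e, pres_per] at h2
        exact ⟨x, Or.inl ⟨by rw [h1, neg_neg], h2⟩⟩
    · rintro ⟨x, ⟨h1, h2⟩ | ⟨h1, h2⟩⟩
      · refine ⟨x, Or.inr ⟨by omega, ?_⟩⟩
        rw [e, pres_per]; exact h2
      · exact ⟨x, Or.inl ⟨by omega, h2⟩⟩
  · intro j q hq
    rw [mem_line] at hq
    obtain ⟨x, ⟨h, _⟩ | ⟨h, _⟩⟩ := hq
    · have := hρn x
      omega
    · have := hρn x
      omega
  · intro j
    apply step_of_unique
    intro q q' hq hq'
    obtain ⟨x, c, hx⟩ := hchange q j hq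
    obtain ⟨x', c', hx'⟩ := hchange q' j hq'
    have key : ∀ u v : ℤ, ((2 * (2 * n) : ℕ) : ℤ) ∣ u - J τ rk (x, c) →
        ((2 * (2 * n) : ℕ) : ℤ) ∣ v - J τ rk (x', c') → ((2 * n : ℕ) : ℤ) ∣ u - v →
        (x, c) = (x', c') := by
      intro u v a b d
      apply J_inj h1 h2
      have e : J τ rk (x, c) - J τ rk (x', c') =
        (v - J τ rk (x', c')) - (u - J τ rk (x, c)) + (u - v) := by ring
      rw [e]
      exact dvd_add (dvd_sub (hdd.trans b) (hdd.trans a)) d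
    rcases hx with ⟨rfl, d1⟩ | ⟨rfl, d1⟩
    · rcases hx' with ⟨rfl, d2⟩ | ⟨rfl, d2⟩
      · have := key _ _ d1 d2 (by simp)
        have hxx : x = x' := (Prod.ext_iff.1 this).1
        rw [hxx]
      · exfalso
        have := key _ _ d1 d2 ⟨-1, by ring⟩
        rw [this] at d1
        exact no_dvd d1 d2 (by omega) (by push_cast; omega)
    · rcases hx' with ⟨rfl, d2⟩ | ⟨rfl, d2⟩
      · exfalso
        have := key _ _ d1 d2 ⟨1, by ring⟩
        rw [this] at d1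
        exact no_dvd d2 d1 (by omega) (by push_cast; omega)
      · have := key _ _ d1 d2 (by simp)
        have hxx : x = x' := (Prod.ext_iff.1 this).1
        rw [hxx]
  · intro x hx i i' a1 a2 a3 a4
    obtain ⟨y, ⟨rfl, _⟩ | ⟨h, _⟩⟩ := mem_line.1 a2
    · rw [pos_mem_line hρ] at a1 a2 a3 a4
      have d1 := pres_start a1 a2
      have d2 := pres_start a3 a4
      have e : i - i' = (i - J τ rk (y, false)) - (i' - J τ rk (y, false)) := by ring
      rw [e]
      exact dvd_sub d1 d2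
    · omega

end

end Pool.Agent.P8H53.Arc
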