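import Pool.Agent.P8H53.Arc.Line

set_option autoImplicit false

/-! Lines of occurrences: how many sights are born when one occurrence is inserted or erased. -/

namespace Pool.Agent.P8H53.Arc

open Finset

/-- the arcs `y < v` see each other on the front side -/
def S (k : ℕ) (L : Finset ℤ) (y v : ℤ) : Prop := y ∈ L ∧ v ∈ L ∧ (arcs L y v).card ≤ k

/-- the arcs `y < v` see each other across the origin -/
def C (k : ℕ) (L : Finset ℤ) (y v : ℤ) : Prop :=
  y ∉ L ∧ -y ∈ L ∧ v ∈ L ∧ (arcs L (-y) v).card ≤ k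

def look (k : ℕ) (L : Finset ℤ) (y v : ℤ) : Prop := S k L y v ∨ C k L y v

def birth (k : ℕ) (L L₂ : Finset ℤ) (y v : ℤ) : Prop :=
  (¬ S k L y v ∧ S k L₂ y v) ∨ (¬ look k L y v ∧ look k L₂ y v)

open Classical in
noncomputable def B (k : ℕ) (n : ℤ) (L L₂ : Finset ℤ) : Finset (ℤ × ℤ) :=
  ((Icc 1 n) ×ˢ (Icc 1 n)).filter fun p => p.1 < p.2 ∧ birth k L L₂ p.1 p.2

theorem mem_B {k : ℕ} {n : ℤ} {L L₂ : Finset ℤ} {p : ℤ × ℤ} : p ∈ B k n L L₂ ↔
    ((1 ≤ p.1 ∧ p.1 ≤ n) ∧ (1 ≤ p.2 ∧ p.2 ≤ n)) ∧ p.1 < p.2 ∧ birth k L L₂ p.1 p.2 := by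
  classical
  unfold B
  rw [mem_filter, mem_product, mem_Icc, mem_Icc]

theorem arcs_mono {L L₂ : Finset ℤ} (h : L ⊆ L₂) (s t : ℤ) : arcs L s t ⊆ arcs L₂ s t := by
  intro y hy
  rw [mem_arcs] at hy ⊢
  obtain ⟨⟨q, h1, h2⟩, h3⟩ := hy
  exact ⟨⟨q, h h1, h2⟩, h3⟩

theorem arcs_insert_eq {L : Finset ℤ} {p s t : ℤ}
    (h : ¬ (s < p ∧ p < t) ∨ p.natAbs = s.natAbs ∨ p.natAbs = t.natAbs) :
    arcs (insert p L) s t = arcs L s t := by
  classical
  apply Subset.antisymm _ (arcs_mono (subset_insert p L) s t)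
  intro y hy
  rw [mem_arcs] at hy ⊢
  obtain ⟨⟨q, h1, h2, h3, h4⟩, h5, h6⟩ := hy
  refine ⟨⟨q, ?_, h2, h3, h4⟩, h5, h6⟩
  rcases mem_insert.1 h1 with rfl | h1
  · exfalso
    rcases h with h | h | h
    · exact h ⟨h2, h3⟩
    · exact h5 (by rw [← h4]; exact h)
    · exact h6 (by rw [← h4]; exact h)
  · exact h1

theorem arcs_insert_sub {L : Finset ℤ} (p s t : ℤ) :
    arcs (insert p L) s t ⊆ insert p.natAbs (arcs L s t) := by
  classical
  intro y hy
  rw [mem_insert]
  rw [mem_arcs] at hy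
  obtain ⟨⟨q, h1, h2, h3, h4⟩, h5, h6⟩ := hy
  rcases mem_insert.1 h1 with rfl | h1
  · left; exact h4.symm
  · right
    exact mem_arcs.2 ⟨⟨q, h1, h2, h3, h4⟩, h5, h6⟩

theorem drop {k : ℕ} {L : Finset ℤ} {p s t : ℤ} (h1 : ¬ (arcs (insert p L) s t).card ≤ k)
    (h2 : (arcs L s t).card ≤ k) : s < p ∧ p < t ∧ p.natAbs ≠ s.natAbs ∧ p.natAbs ≠ t.natAbs ∧
      p.natAbs ∉ arcs L s t ∧ (arcs L s t).card = k := by
  classical
  have h3 : ¬ (¬ (s < p ∧ p < t) ∨ p.natAbs = s.natAbs ∨ p.natAbs = t.natAbs) := by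
    intro h
    rw [arcs_insert_eq h] at h1
    exact h1 h2
  push Not at h3
  refine ⟨h3.1.1, h3.1.2, h3.2.1, h3.2.2, ?_, ?_⟩
  · intro h
    have := card_le_card (arcs_insert_sub (L := L) p s t)
    rw [insert_eq_of_mem h] at this
    exact h1 (this.trans h2)
  · have := (card_le_card (arcs_insert_sub (L := L) p s t)).trans (card_insert_le _ _)
    omega

theorem arcs_pos {L : Finset ℤ} {x v : ℤ} (hx : 0 < x) :
    (arcs L x v).card = (L.filter fun q => x < q ∧ q < v).card := by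
  classical
  rw [← card_image_of_injOn (s := L.filter fun q => x < q ∧ q < v) (f := Int.natAbs)]
  · congr 1
    ext y
    rw [mem_arcs, mem_image]
    constructor
    · rintro ⟨⟨q, h1, h2, h3, h4⟩, -, -⟩
      exact ⟨q, mem_filter.2 ⟨h1, h2, h3⟩, h4⟩
    · rintro ⟨q, hq, rfl⟩
      rw [mem_filter] at hq
      exact ⟨⟨q, hq.1, hq.2.1, hq.2.2, rfl⟩, by omega, by omega⟩
  · intro a ha b hb hab
    rw [mem_coe, mem_filter] at ha hb
    omega

/-! ### insertions -/

theorem birth_start_front {k : ℕ} {L : Finset ℤ} {x y v : ℤ} (hx : 0 < x) (hxL : x ∉ L)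
    (hy : 0 < y) (hyv : y < v) (hb : birth k L (insert x L) y v) :
    (y = x ∧ v ∈ L ∧ (arcs L x v).card ≤ k) ∨
      (v = x ∧ ∃ q ∈ Nb L x, (q.natAbs : ℤ) = y ∧ (arcs L q x).card ≤ k) := by
  classical
  have hnew : look k (insert x L) y v := by
    rcases hb with h | h
    · exact Or.inl h.2
    · exact h.2
  by_cases hvx : v = x
  · right
    subst hvx
    refine ⟨rfl, ?_⟩
    rcases hnew with ⟨h1, h2, h3⟩ | ⟨h1, h2, h3, h4⟩
    · have hyL : y ∈ L := (mem_insert.1 h1).resolve_left (by omega)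
      rw [arcs_insert_eq (Or.inl (by omega))] at h3
      refine ⟨y, mem_Nb.2 ⟨hyL, hyv, by omega, ?_⟩, by omega, h3⟩
      intro q' _ hq1 _
      omega
    · have hyL : -y ∈ L := (mem_insert.1 h2).resolve_left (by omega)
      rw [arcs_insert_eq (Or.inl (by omega))] at h4
      refine ⟨-y, mem_Nb.2 ⟨hyL, by omega, by omega, ?_⟩, by omega, h4⟩
      intro q' hq' hq1 _ hq3
      have : q' = y := by omega
      subst this
      exact h1 (mem_insert_of_mem hq')
  · by_cases hyx : y = x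
    · left
      subst hyx
      rcases hnew with ⟨h1, h2, h3⟩ | ⟨h1, h2, h3, h4⟩
      · rw [arcs_insert_eq (Or.inl (by omega))] at h3
        exact ⟨rfl, (mem_insert.1 h2).resolve_left hvx, h3⟩
      · exact absurd (mem_insert_self y L) h1
    · exfalso
      have hS : S k (insert x L) y v → S k L y v := by
        rintro ⟨h1, h2, h3⟩
        exact ⟨(mem_insert.1 h1).resolve_left hyx, (mem_insert.1 h2).resolve_left hvx,
          (card_le_card (arcs_mono (subset_insert x L) y v)).trans h3⟩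
      have hC : C k (insert x L) y v → C k L y v := by
        rintro ⟨h1, h2, h3, h4⟩
        exact ⟨fun h => h1 (mem_insert_of_mem h), (mem_insert.1 h2).resolve_left (by omega),
          (mem_insert.1 h3).resolve_left hvx,
          (card_le_card (arcs_mono (subset_insert x L) (-y) v)).trans h4⟩
      rcases hb with h | h
      · exact h.1 (hS h.2)
      · apply h.1
        rcases h.2 with h | h
        · exact Or.inl (hS h)
        · exact Or.inr (hC h)

theorem birth_start_back {k : ℕ} {L : Finset ℤ} {x y v : ℤ} (hx : 0 < x) (hxL : x ∉ L)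
    (hy : 0 < y) (hyv : y < v) (hb : birth k (ng L) (insert (-x) (ng L)) y v) :
    y = x ∧ -v ∈ Nb L x ∧ (arcs L (-v) x).card ≤ k := by
  classical
  have hS : S k (insert (-x) (ng L)) y v → S k (ng L) y v := by
    rintro ⟨h1, h2, h3⟩
    exact ⟨(mem_insert.1 h1).resolve_left (by omega), (mem_insert.1 h2).resolve_left (by omega),
      (card_le_card (arcs_mono (subset_insert (-x) (ng L)) y v)).trans h3⟩
  have hl : ¬ look k (ng L) y v ∧ C k (insert (-x) (ng L)) y v := by
    rcases hb with h | h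
    · exact absurd (hS h.2) h.1
    · refine ⟨h.1, ?_⟩
      rcases h.2 with h' | h'
      · exact absurd (Or.inl (hS h')) h.1
      · exact h'
  obtain ⟨hl1, h1, h2, h3, h4⟩ := hl
  have hyx : y = x := by
    by_contra hyx
    apply hl1
    right
    exact ⟨fun h => h1 (mem_insert_of_mem h), (mem_insert.1 h2).resolve_left (by omega),
      (mem_insert.1 h3).resolve_left (by omega),
      (card_le_card (arcs_mono (subset_insert (-x) (ng L)) (-y) v)).trans h4⟩
  subst hyx
  have hv : -v ∈ L := by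
    have := (mem_insert.1 h3).resolve_left (by omega)
    rwa [mem_ng] at this
  rw [arcs_insert_eq (Or.inl (by omega))] at h4
  have he := arcs_ng L (-v) y
  rw [neg_neg] at he
  rw [he] at h4
  refine ⟨rfl, mem_Nb.2 ⟨hv, by omega, by omega, ?_⟩, h4⟩
  intro q' _ hq1 hq2
  omega

theorem start_bound {k : ℕ} {n : ℤ} {L : Finset ℤ} {x : ℤ} (hx : 0 < x) (hxL : x ∉ L) :
    (B k n L (insert x L)).card + (B k n (ng L) (insert (-x) (ng L))).card +
      (k + 1 - dd L x) + (k + 1 - dd (ng L) (-x)) ≤ 2 * (k + 1) := by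
  classical
  set N := L.filter (x < ·) with hN
  set Out := N.filter fun q => (N.filter (· < q)).card < k + 1 with hOut
  set W := Top (k + 1) (Nb L x) with hW
  have h1 : B k n L (insert x L) ⊆ (Out.image fun v => (x, v)) ∪
      ((W.filter fun q => (q.natAbs : ℤ) < x).image fun q => ((q.natAbs : ℤ), x)) := by
    rintro ⟨y, v⟩ hp
    rw [mem_B] at hp
    obtain ⟨⟨⟨p1, _⟩, _⟩, p2, p3⟩ := hp
    simp only at p1 p2 p3
    rw [mem_union, mem_image, mem_image]
    rcases birth_start_front hx hxL (by omega) p2 p3 with ⟨rfl, hv, hc⟩ | ⟨rfl, q, hq, hqy, hc⟩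
    · left
      refine ⟨v, ?_, rfl⟩
      rw [hOut, mem_filter, hN, mem_filter]
      refine ⟨⟨hv, p2⟩, ?_⟩
      rw [arcs_pos hx] at hc
      rw [filter_filter]
      omega
    · right
      refine ⟨q, ?_, by rw [hqy]⟩
      rw [mem_filter, hW, mem_Top]
      rw [arcs_card hq] at hc
      exact ⟨⟨hq, by omega⟩, by omega⟩
  have h2 : B k n (ng L) (insert (-x) (ng L)) ⊆
      ((W.filter fun q => ¬ (q.natAbs : ℤ) < x).image fun q => (x, (q.natAbs : ℤ))) := by
    rintro ⟨y, v⟩ hp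
    rw [mem_B] at hp
    obtain ⟨⟨⟨p1, _⟩, _⟩, p2, p3⟩ := hp
    simp only at p1 p2 p3
    rw [mem_image]
    obtain ⟨rfl, hq, hc⟩ := birth_start_back hx hxL (by omega) p2 p3
    refine ⟨-v, ?_, by congr 1; omega⟩
    rw [mem_filter, hW, mem_Top]
    rw [arcs_card hq] at hc
    exact ⟨⟨hq, by omega⟩, by omega⟩
  have c1 := (card_le_card h1).trans (card_union_le _ _)
  have c2 := card_le_card h2
  have c3 := card_image_le (s := Out) (f := fun v => (x, v))
  have c4 := card_image_le (s := W.filter fun q => (q.natAbs : ℤ) < x)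
    (f := fun q => ((q.natAbs : ℤ), x))
  have c5 := card_image_le (s := W.filter fun q => ¬ (q.natAbs : ℤ) < x)
    (f := fun q => (x, (q.natAbs : ℤ)))
  have c6 := card_filter_add_card_filter_not (s := W) (fun q => (q.natAbs : ℤ) < x)
  have c7 : W.card = min (k + 1) (Nb L x).card := card_Top _ _
  have c8 : Out.card = min (k + 1) N.card := card_Bot _ _
  have c9 : dd L x = N.card := dd_pos hx
  have c10 : dd (ng L) (-x) = (Nb L x).card := dd_ng L x
  omega

/-! ### removals -/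

/-- a sight that opens when `x` is removed -/
def Phi (k : ℕ) (L : Finset ℤ) (x q t : ℤ) : Prop :=
  q ∈ L ∧ q < x ∧ x < t ∧ t ∈ L ∧ q.natAbs ≠ x.natAbs ∧ q.natAbs ≠ t.natAbs ∧
    (∀ q' ∈ L, q < q' → q' < t → q'.natAbs ≠ q.natAbs) ∧ (arcs L q t).card = k ∧
    x.natAbs ∉ arcs L q t

theorem birth_end_front {k : ℕ} {L : Finset ℤ} {x y v : ℤ} (hx : 0 < x)
    (hy : 0 < y) (hyv : y < v) (hb : birth k (insert x L) L y v) :
    ∃ q, Phi k L x q v ∧ (q.natAbs : ℤ) = y := by
  classical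
  have hS : ¬ S k (insert x L) y v → S k L y v → ∃ q, Phi k L x q v ∧ (q.natAbs : ℤ) = y := by
    rintro h ⟨h1, h2, h3⟩
    have h4 : ¬ (arcs (insert x L) y v).card ≤ k := fun h4 =>
      h ⟨mem_insert_of_mem h1, mem_insert_of_mem h2, h4⟩
    obtain ⟨d1, d2, d3, d4, d5, d6⟩ := drop h4 h3
    exact ⟨y, ⟨h1, d1, d2, h2, d3.symm, by omega, by intro q' _ _ _; omega, d6, d5⟩, by omega⟩
  rcases hb with h | h
  · exact hS h.1 h.2
  · have hn1 : ¬ S k (insert x L) y v := fun h' => h.1 (Or.inl h')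
    rcases h.2 with h' | ⟨h1, h2, h3, h4⟩
    · exact hS hn1 h'
    · by_cases hyx : y = x
      · exfalso
        subst hyx
        apply hn1
        refine ⟨mem_insert_self _ _, mem_insert_of_mem h3, ?_⟩
        rw [arcs_insert_eq (Or.inl (by omega))]
        refine le_trans (card_le_card ?_) h4
        intro z hz
        rw [mem_arcs] at hz ⊢
        obtain ⟨⟨q, z1, z2, z3, z4⟩, z5, z6⟩ := hz
        exact ⟨⟨q, z1, by omega, z3, z4⟩, by omega, z6⟩
      · have h5 : ¬ (arcs (insert x L) (-y) v).card ≤ k := fun h5 =>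
          h.1 (Or.inr ⟨fun h' => h1 ((mem_insert.1 h').resolve_left hyx), mem_insert_of_mem h2,
            mem_insert_of_mem h3, h5⟩)
        obtain ⟨d1, d2, d3, d4, d5, d6⟩ := drop h5 h4
        refine ⟨-y, ⟨h2, d1, d2, h3, d3.symm, by omega, ?_, d6, d5⟩, by omega⟩
        intro q' hq' hq1 _ hq3
        have : q' = y := by omega
        subst this
        exact h1 hq'

theorem birth_end_back {k : ℕ} {L : Finset ℤ} {x y v : ℤ} (hx : 0 < x) (hxL : x ∉ L)
    (hy : 0 < y) (hyv : y < v) (hb : birth k (insert (-x) (ng L)) (ng L) y v) :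
    Phi k L x (-v) y := by
  classical
  have hS : S k (ng L) y v → S k (insert (-x) (ng L)) y v := by
    rintro ⟨h1, h2, h3⟩
    refine ⟨mem_insert_of_mem h1, mem_insert_of_mem h2, ?_⟩
    rw [arcs_insert_eq (Or.inl (by omega))]
    exact h3
  have hl : ¬ look k (insert (-x) (ng L)) y v ∧ C k (ng L) y v := by
    rcases hb with h | h
    · exact absurd (hS h.2) h.1
    · refine ⟨h.1, ?_⟩
      rcases h.2 with h' | h'
      · exact absurd (Or.inl (hS h')) h.1
      · exact h'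
  obtain ⟨hl1, h1, h2, h3, h4⟩ := hl
  have hyL : y ∈ L := by
    rw [mem_ng, neg_neg] at h2; exact h2
  have hvL : -v ∈ L := by
    rw [mem_ng] at h3; exact h3
  have hyx : y ≠ x := by
    rintro rfl
    exact hxL hyL
  have h5 : ¬ (arcs (insert (-x) (ng L)) (-y) v).card ≤ k := fun h5 =>
    hl1 (Or.inr ⟨fun h' => h1 ((mem_insert.1 h').resolve_left (by omega)), mem_insert_of_mem h2,
      mem_insert_of_mem h3, h5⟩)
  obtain ⟨d1, d2, d3, d4, d5, d6⟩ := drop h5 h4
  have he := arcs_ng L (-v) y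
  rw [neg_neg] at he
  rw [he] at d5 d6
  refine ⟨hvL, by omega, by omega, hyL, by omega, by omega, ?_, d6, ?_⟩
  · intro q' _ hq1 hq2
    omega
  · rwa [Int.natAbs_neg] at d5

theorem Phi_nb {k : ℕ} {L : Finset ℤ} {x q t : ℤ} (h : Phi k L x q t) : q ∈ Nb L x :=
  mem_Nb.2 ⟨h.1, h.2.1, h.2.2.2.2.1, fun q' h1 h2 h3 =>
    h.2.2.2.2.2.2.1 q' h1 h2 (h3.trans h.2.2.1)⟩

theorem Phi_inj_aux {k : ℕ} {L : Finset ℤ} {x q₁ q₂ t : ℤ} (h1 : Phi k L x q₁ t)
    (h2 : Phi k L x q₂ t) : ¬ q₁ < q₂ := by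
  classical
  intro h
  obtain ⟨a1, a2, a3, a4, a5, a6, a7, a8, a9⟩ := h1
  obtain ⟨b1, b2, b3, b4, b5, b6, b7, b8, b9⟩ := h2
  have hs : insert q₂.natAbs (arcs L q₂ t) ⊆ arcs L q₁ t := by
    intro y hy
    rcases mem_insert.1 hy with rfl | hy
    · exact mem_arcs.2 ⟨⟨q₂, b1, h, by omega, rfl⟩, a7 q₂ b1 h (by omega), b6⟩
    · obtain ⟨⟨r, r1, r2, r3, r4⟩, r5, r6⟩ := mem_arcs.1 hy
      exact mem_arcs.2 ⟨⟨r, r1, by omega, r3, r4⟩,
        by rw [← r4]; exact a7 r r1 (by omega) r3, r6⟩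
  have hn : q₂.natAbs ∉ arcs L q₂ t := fun h => (mem_arcs.1 h).2.1 rfl
  have := card_le_card hs
  rw [card_insert_of_notMem hn] at this
  omega

theorem Phi_inj {k : ℕ} {L : Finset ℤ} {x q₁ q₂ t : ℤ} (h1 : Phi k L x q₁ t)
    (h2 : Phi k L x q₂ t) : q₁ = q₂ := by
  rcases lt_trichotomy q₁ q₂ with h | h | h
  · exact absurd h (Phi_inj_aux h1 h2)
  · exact h
  · exact absurd h (Phi_inj_aux h2 h1)

theorem Phi_count {k : ℕ} {L : Finset ℤ} {x q t : ℤ} (hx : 0 < x) (hxL : x ∉ L)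
    (h : Phi k L x q t) :
    (((L.filter (x < ·)).filter (· < t)).card < k + 1) ∧
      ¬ ((L.filter (x < ·)).filter (· < t)).card < k + 1 - (Nb L x).card := by
  classical
  have hq := Phi_nb h
  obtain ⟨a1, a2, a3, a4, a5, a6, a7, a8, a9⟩ := h
  set N := (L.filter (x < ·)).filter (· < t) with hN
  have hmem : ∀ p, p ∈ N ↔ p ∈ L ∧ x < p ∧ p < t := by
    intro p
    rw [hN, mem_filter, mem_filter, and_assoc]
  have hinj : (N.image Int.natAbs).card = N.card := by
    apply card_image_of_injOn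
    intro a ha b hb hab
    rw [mem_coe, hmem] at ha hb
    omega
  constructor
  · have hs : N.image Int.natAbs ⊆ arcs L q t := by
      intro y hy
      rw [mem_image] at hy
      obtain ⟨p, hp, rfl⟩ := hy
      rw [hmem] at hp
      exact mem_arcs.2 ⟨⟨p, hp.1, by omega, hp.2.2, rfl⟩, a7 p hp.1 (by omega) hp.2.2, by omega⟩
    have := card_le_card hs
    omega
  · have hs : arcs L q t ⊆ N.image Int.natAbs ∪ ((Nb L x).erase q).image Int.natAbs := by
      intro y hy
      obtain ⟨⟨r, r1, r2, r3, r4⟩, r5, r6⟩ := mem_arcs.1 hy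
      rw [mem_union, mem_image, mem_image]
      rcases lt_trichotomy r x with h | h | h
      · right
        have hne : r.natAbs ≠ x.natAbs := by
          intro h'
          apply a9
          rw [← h', r4]
          exact hy
        obtain ⟨r', hr', _, hre⟩ := exists_nearest r1 h hne
        refine ⟨r', mem_erase.2 ⟨?_, hr'⟩, by rw [hre, r4]⟩
        rintro rfl
        rw [hre, r4] at r5
        exact r5 rfl
      · subst h
        exact absurd r1 hxL
      · left
        exact ⟨r, (hmem r).2 ⟨r1, h, r3⟩, r4⟩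
    have h1 := (card_le_card hs).trans (card_union_le _ _)
    have h2 := card_image_le (s := (Nb L x).erase q) (f := Int.natAbs)
    have h3 := card_erase_of_mem hq
    have h4 : 0 < (Nb L x).card := card_pos.2 ⟨q, hq⟩
    omega

theorem end_bound {k : ℕ} {n : ℤ} {L : Finset ℤ} {x : ℤ} (hx : 0 < x) (hxL : x ∉ L)
    (hk : k + 1 ≤ dd L x + dd (ng L) (-x)) :
    (B k n (insert x L) L).card + (B k n (insert (-x) (ng L)) (ng L)).card +
      (k + 1 - dd L x) + (k + 1 - dd (ng L) (-x)) ≤ k + 1 := by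
  classical
  set N := L.filter (x < ·) with hN
  set D := (Nb L x).card with hD
  set O1 := N.filter fun q => (N.filter (· < q)).card < k + 1 with hO1
  set O2 := N.filter fun q => (N.filter (· < q)).card < k + 1 - D with hO2
  set P := (L ×ˢ L).filter fun p => Phi k L x p.1 p.2 with hP
  have hPmem : ∀ q t, Phi k L x q t → (q, t) ∈ P := by
    intro q t h
    rw [hP, mem_filter, mem_product]
    exact ⟨⟨h.1, h.2.2.2.1⟩, h⟩
  have h1 : B k n (insert x L) L ⊆
      (P.filter fun p => (p.1.natAbs : ℤ) < p.2).image fun p => ((p.1.natAbs : ℤ), p.2) := by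
    rintro ⟨y, v⟩ hp
    rw [mem_B] at hp
    obtain ⟨⟨⟨p1, _⟩, _⟩, p2, p3⟩ := hp
    simp only at p1 p2 p3
    obtain ⟨q, hq, hqy⟩ := birth_end_front hx (by omega) p2 p3
    rw [mem_image]
    exact ⟨(q, v), mem_filter.2 ⟨hPmem q v hq, by simp only; omega⟩, by simp only; rw [hqy]⟩
  have h2 : B k n (insert (-x) (ng L)) (ng L) ⊆
      (P.filter fun p => ¬ (p.1.natAbs : ℤ) < p.2).image fun p => (p.2, (p.1.natAbs : ℤ)) := by
    rintro ⟨y, v⟩ hp
    rw [mem_B] at hp
    obtain ⟨⟨⟨p1, _⟩, _⟩, p2, p3⟩ := hp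
    simp only at p1 p2 p3
    have hq := birth_end_back hx hxL (by omega) p2 p3
    rw [mem_image]
    exact ⟨(-v, y), mem_filter.2 ⟨hPmem _ _ hq, by simp only; omega⟩,
      by simp only; congr 1; omega⟩
  have c1 := (card_le_card h1).trans card_image_le
  have c2 := (card_le_card h2).trans card_image_le
  have c3 := card_filter_add_card_filter_not (s := P) (fun p => (p.1.natAbs : ℤ) < p.2)
  have c4 : P.card ≤ (O1 \ O2).card := by
    apply card_le_card_of_injOn (fun p => p.2)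
    · intro p hp
      rw [mem_coe, hP, mem_filter] at hp
      have hc := Phi_count hx hxL hp.2
      have hm : p.2 ∈ N := by
        rw [hN, mem_filter]
        exact ⟨hp.2.2.2.2.1, hp.2.2.2.1⟩
      exact mem_sdiff.2 ⟨mem_filter.2 ⟨hm, hc.1⟩, fun h => hc.2 (mem_filter.1 h).2⟩
    · rintro ⟨q₁, t₁⟩ h₁ ⟨q₂, t₂⟩ h₂ h
      rw [mem_coe, hP, mem_filter] at h₁ h₂
      simp only at h
      subst h
      have := Phi_inj h₁.2 h₂.2
      simp only at this
      rw [this]
  have hsub : O2 ⊆ O1 := by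
    intro q hq
    rw [hO2, mem_filter] at hq
    rw [hO1, mem_filter]
    exact ⟨hq.1, by omega⟩
  rw [card_sdiff_of_subset hsub] at c4
  have c5 : O1.card = min (k + 1) N.card := card_Bot _ _
  have c6 : O2.card = min (k + 1 - D) N.card := card_Bot _ _
  have c7 : dd L x = N.card := dd_pos hx
  have c8 : dd (ng L) (-x) = D := dd_ng L x
  omega

end Pool.Agent.P8H53.Arc
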