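import Pool.Agent.P8H53.Arc.Disc
import Pool.Agent.X63.SemiArc

set_option autoImplicit false

/-! From arcs in the plane to a rotating line. -/

namespace Pool.Agent.P8H53.Arc

open Finset Pool.Agent.X63

theorem occ_seen {M : ℕ} {n : ℤ} {Q : ℤ → Finset ℤ} (hQ : Config M n Q) {k : ℕ} {j s t : ℤ}
    (hs : s ∈ Q j) (ht : t ∈ Q j) (hst : s < t) (hne : s.natAbs ≠ t.natAbs)
    (hc : (arcs (Q j) s t).card ≤ k) :
    seen k Q (min (s.natAbs : ℤ) t.natAbs) (max (s.natAbs : ℤ) t.natAbs) := by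
  classical
  have hs0 := (hQ.rng j s hs).1
  have ht0 := (hQ.rng j t ht).1
  have hsub : ∀ (L : Finset ℤ) (y v : ℤ), 0 < y → arcs L y v ⊆ arcs L (-y) v := by
    intro L y v hy z hz
    rw [mem_arcs] at hz ⊢
    obtain ⟨⟨q, z1, z2, z3, z4⟩, z5, z6⟩ := hz
    exact ⟨⟨q, z1, by omega, z3, z4⟩, by omega, z6⟩
  have hback : ∀ (L : Finset ℤ) (y v : ℤ), 0 < y → -y ∈ L → v ∈ L →
      (arcs L (-y) v).card ≤ k → look k L y v := by
    intro L y v hy h1 h2 h3
    by_cases h : y ∈ L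
    · exact Or.inl ⟨h, h2, (card_le_card (hsub L y v hy)).trans h3⟩
    · exact Or.inr ⟨h, h1, h2, h3⟩
  by_cases hlt : s.natAbs < t.natAbs
  · -- then `t > 0`
    have ht' : t = (t.natAbs : ℤ) := by omega
    have e1 : min (s.natAbs : ℤ) t.natAbs = s.natAbs := by omega
    have e2 : max (s.natAbs : ℤ) t.natAbs = t := by omega
    rw [e1, e2]
    refine ⟨j, ?_⟩
    rcases lt_or_gt_of_ne hs0 with h0 | h0
    · have e3 : s = -(s.natAbs : ℤ) := by omega
      rw [e3] at hs hc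
      exact hback _ _ _ (by omega) hs ht hc
    · have e3 : s = (s.natAbs : ℤ) := by omega
      rw [e3] at hs hc
      exact Or.inl ⟨hs, ht, hc⟩
  · -- then `s < 0`
    have hs' : s = -(s.natAbs : ℤ) := by omega
    have e1 : min (s.natAbs : ℤ) t.natAbs = t.natAbs := by omega
    have e2 : max (s.natAbs : ℤ) t.natAbs = s.natAbs := by omega
    rw [e1, e2]
    refine ⟨j + M, ?_⟩
    rw [hQ.mir j]
    have hs2 : (s.natAbs : ℤ) ∈ ng (Q j) := by
      rw [mem_ng, ← hs']; exact hs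
    have ha := arcs_ng (Q j) s t
    rw [← ha] at hc
    have hs3 : -s = (s.natAbs : ℤ) := by omega
    rw [hs3] at hc
    rcases lt_or_gt_of_ne ht0 with h0 | h0
    · have e3 : -t = (t.natAbs : ℤ) := by omega
      rw [e3] at hc
      refine Or.inl ⟨?_, hs2, hc⟩
      rw [mem_ng]
      have : -(t.natAbs : ℤ) = t := by omega
      rw [this]; exact ht
    · have e3 : -t = -(t.natAbs : ℤ) := by omega
      rw [e3] at hc
      refine hback _ _ _ (by omega) ?_ hs2 hc
      rw [mem_ng, neg_neg]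
      have : (t.natAbs : ℤ) = t := by omega
      rw [this]; exact ht

/-! ### angles -/

theorem rayPt_eq_pos {r s φ ψ : ℝ} (hr : 0 < r) (hs : 0 < s) (h : rayPt s φ = rayPt r ψ) :
    s = r ∧ ∃ z : ℤ, ψ = φ + z * (2 * Real.pi) := by
  unfold rayPt at h
  have e1 : s * Real.cos φ = r * Real.cos ψ := congrArg Prod.fst h
  have e2 : s * Real.sin φ = r * Real.sin ψ := congrArg Prod.snd h
  have hrs : s ^ 2 = r ^ 2 := by
    have a1 := Real.sin_sq_add_cos_sq φ
    have a2 := Real.sin_sq_add_cos_sq ψ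
    calc s ^ 2 = (s * Real.cos φ) ^ 2 + (s * Real.sin φ) ^ 2 := by
          rw [mul_pow, mul_pow, ← mul_add, add_comm (Real.cos φ ^ 2), a1, mul_one]
      _ = (r * Real.cos ψ) ^ 2 + (r * Real.sin ψ) ^ 2 := by rw [e1, e2]
      _ = r ^ 2 := by rw [mul_pow, mul_pow, ← mul_add, add_comm (Real.cos ψ ^ 2), a2, mul_one]
  have hrs' : s = r := (sq_eq_sq₀ hs.le hr.le).mp hrs
  subst hrs'
  refine ⟨rfl, ?_⟩
  have c1 : Real.cos φ = Real.cos ψ := mul_left_cancel₀ hr.ne' e1
  have c2 : Real.sin φ = Real.sin ψ := mul_left_cancel₀ hr.ne' e2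
  have c3 : Real.cos (ψ - φ) = 1 := by
    rw [Real.cos_sub, c1, c2]
    have := Real.sin_sq_add_cos_sq ψ
    nlinarith
  rw [Real.cos_eq_one_iff] at c3
  obtain ⟨z, hz⟩ := c3
  exact ⟨z, by linarith⟩

theorem rayPt_eq_neg {r s φ ψ : ℝ} (hr : 0 < r) (hs : s < 0) (h : rayPt s φ = rayPt r ψ) :
    s = -r ∧ ∃ z : ℤ, ψ = φ + Real.pi + z * (2 * Real.pi) := by
  rw [SA.rayPt_neg s φ] at h
  obtain ⟨h1, h2⟩ := rayPt_eq_pos hr (by linarith) h
  exact ⟨by linarith, h2⟩

theorem rayPt_per (s φ : ℝ) (z : ℤ) : rayPt s (φ + z * (2 * Real.pi)) = rayPt s φ := by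
  unfold rayPt
  rw [Real.cos_add_int_mul_two_pi, Real.sin_add_int_mul_two_pi]

section

variable {n : ℕ} (r a b : Fin n → ℝ)

/-- the times of the endpoints -/
noncomputable def tm (e : Fin n × Bool) : ℝ := (if e.2 then b e.1 else a e.1) / Real.pi

/-- the arc `w` meets the ray of angle `φ` -/
def cov (w : Fin n) (φ : ℝ) : Prop :=
  ∃ z : ℤ, a w ≤ φ + z * (2 * Real.pi) ∧ φ + z * (2 * Real.pi) ≤ b w

variable {r a b} {rk : Fin n × Bool → ℕ}

theorem cov_of_pres (h1 : ∀ e, rk e < 2 * n) (h2 : Function.Injective rk)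
    (h3 : ∀ i < 2 * n, ∃ a, rk a = i)
    (h4 : ∀ e e', rk e ≤ rk e' → Int.fract (tm a b e) ≤ Int.fract (tm a b e'))
    {w : Fin n} {φ : ℝ} (h : pres (tm a b) rk w (jt (tm a b) (φ / Real.pi))) : cov a b w φ := by
  have hpi := Real.pi_pos
  obtain ⟨z, hz1, hz2⟩ := h
  refine ⟨-z, ?_, ?_⟩
  · by_contra hlt
    push Not at hlt
    have h5 : φ / Real.pi < tm a b (w, false) + ((2 * z : ℤ) : ℝ) := by
      unfold tm
      simp only [Bool.false_eq_true, if_false]
      rw [div_lt_iff₀ hpi, add_mul, div_mul_cancel₀ _ hpi.ne']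
      push_cast at hlt ⊢
      linarith
    have := le_J h2 h4 h5
    have e : (2 * z) * ((2 * n : ℕ) : ℤ) = z * ((2 * (2 * n) : ℕ) : ℤ) := by push_cast; ring
    rw [e] at this
    omega
  · by_contra hlt
    push Not at hlt
    have h5 : tm a b (w, true) + ((2 * z : ℤ) : ℝ) < φ / Real.pi := by
      unfold tm
      simp only [if_true]
      rw [lt_div_iff₀ hpi, add_mul, div_mul_cancel₀ _ hpi.ne']
      push_cast at hlt ⊢
      linarith
    have := J_lt h1 h3 h4 h5
    have e : (2 * z) * ((2 * n : ℕ) : ℤ) = z * ((2 * (2 * n) : ℕ) : ℤ) := by push_cast; ring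
    rw [e] at this
    omega

theorem pres_of_cov (h1 : ∀ e, rk e < 2 * n) (h2 : Function.Injective rk)
    (h3 : ∀ i < 2 * n, ∃ a, rk a = i)
    (h4 : ∀ e e', rk e ≤ rk e' → Int.fract (tm a b e) ≤ Int.fract (tm a b e'))
    {w : Fin n} {φ : ℝ} (hg : ∀ (e : Fin n × Bool) (m : ℤ), φ ≠ Real.pi * (tm a b e + m))
    (h : cov a b w φ) : pres (tm a b) rk w (jt (tm a b) (φ / Real.pi)) := by
  have hpi := Real.pi_pos
  obtain ⟨z, hz1, hz2⟩ := h
  have g1 := hg (w, false) (-(2 * z))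
  have g2 := hg (w, true) (-(2 * z))
  have t1 : Real.pi * tm a b (w, false) = a w := by
    unfold tm
    simp only [Bool.false_eq_true, if_false]
    exact mul_div_cancel₀ _ hpi.ne'
  have t2 : Real.pi * tm a b (w, true) = b w := by
    unfold tm
    simp only [if_true]
    exact mul_div_cancel₀ _ hpi.ne'
  rw [mul_add, t1] at g1
  rw [mul_add, t2] at g2
  push_cast at g1 g2
  have k1 : a w < φ + z * (2 * Real.pi) := lt_of_le_of_ne hz1 (fun h => g1 (by linarith))
  have k2 : φ + z * (2 * Real.pi) < b w := lt_of_le_of_ne hz2 (fun h => g2 (by linarith))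
  have e : (-(2 * z)) * ((2 * n : ℕ) : ℤ) = (-z) * ((2 * (2 * n) : ℕ) : ℤ) := by push_cast; ring
  refine ⟨-z, ?_, ?_⟩
  · rw [← e]
    apply J_lt h1 h3 h4
    rw [lt_div_iff₀ hpi, add_mul, mul_comm (tm a b (w, false)), t1]
    push_cast
    linarith
  · rw [← e]
    apply le_J h2 h4
    rw [div_lt_iff₀ hpi, add_mul, mul_comm (tm a b (w, true)), t2]
    push_cast
    linarith

variable {ρ : Fin n → ℕ}

/-- signed position -/
noncomputable def sp (ρ : Fin n → ℕ) (w : Fin n) (s : ℝ) : ℤ :=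
  if 0 < s then (ρ w : ℤ) + 1 else -((ρ w : ℤ) + 1)

theorem jt_shift (φ : ℝ) : jt (tm a b) ((φ + Real.pi) / Real.pi) =
    jt (tm a b) (φ / Real.pi) + ((2 * n : ℕ) : ℤ) := by
  rw [add_div, div_self Real.pi_pos.ne', jt_add_one]

/-- visible pairs are seen -/
theorem seen_of_radVis (hn : 0 < n) (hr : ∀ v, 0 < r v)
    (h1 : ∀ e, rk e < 2 * n) (h2 : Function.Injective rk) (h3 : ∀ i < 2 * n, ∃ a, rk a = i)
    (h4 : ∀ e e', rk e ≤ rk e' → Int.fract (tm a b e) ≤ Int.fract (tm a b e'))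
    (hρ : Function.Injective ρ) (hρn : ∀ x, ρ x < n) (hρr : ∀ x y, ρ x ≤ ρ y → r x ≤ r y)
    {k : ℕ} {u v : Fin n} (huv : u ≠ v) {s₁ s₂ b₁ b₂ : ℝ} (z₁ : s₁ ≠ 0) (z₂ : s₂ ≠ 0)
    (hs : s₁ < s₂) (hb : b₁ < b₂)
    (hu : coneSet s₁ s₁ b₁ b₂ ⊆ arcSet (r u) (a u) (b u))
    (hv : coneSet s₂ s₂ b₁ b₂ ⊆ arcSet (r v) (a v) (b v))
    (hk : Set.ncard {w : Fin n | w ≠ u ∧ w ≠ v ∧
      (arcSet (r w) (a w) (b w) ∩ coneSet s₁ s₂ b₁ b₂).Nonempty} ≤ k) :
    seen k (line (tm a b) rk ρ) (min ((ρ u : ℤ) + 1) ((ρ v : ℤ) + 1))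
      (max ((ρ u : ℤ) + 1) ((ρ v : ℤ) + 1)) := by
  classical
  have hpi := Real.pi_pos
  -- a generic direction
  obtain ⟨φ, hφg, hφ1, hφ2⟩ : ∃ φ, (∀ (e : Fin n × Bool) (m : ℤ),
      φ ≠ Real.pi * (tm a b e + m)) ∧ b₁ < φ ∧ φ < b₂ := by
    have hc : (Set.range fun p : (Fin n × Bool) × ℤ =>
        Real.pi * (tm a b p.1 + p.2)).Countable := Set.countable_range _
    obtain ⟨φ, hφ, hφ'⟩ := (Set.Countable.dense_compl ℝ hc).exists_between hb
    refine ⟨φ, fun e m h => hφ ⟨(e, m), h.symm⟩, hφ'.1, hφ'.2⟩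
  have hφg' : ∀ (e : Fin n × Bool) (m : ℤ), φ + Real.pi ≠ Real.pi * (tm a b e + m) := by
    intro e m h
    apply hφg e (m - 1)
    push_cast
    linarith
  set j := jt (tm a b) (φ / Real.pi) with hj
  have hmem : ∀ (w : Fin n) (s : ℝ), s ≠ 0 → rayPt s φ ∈ arcSet (r w) (a w) (b w) →
      |s| = r w ∧ sp ρ w s ∈ line (tm a b) rk ρ j := by
    intro w s hs0 hw
    obtain ⟨ψ, p1, p2, p3⟩ := hw
    unfold sp
    rcases lt_or_gt_of_ne hs0 with h0 | h0
    · obtain ⟨e1, z, e2⟩ := rayPt_eq_neg (hr w) h0 p3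
      rw [if_neg (by linarith), neg_mem_line hρ, hj, ← jt_shift]
      refine ⟨by rw [abs_of_neg h0]; linarith, ?_⟩
      apply pres_of_cov h1 h2 h3 h4 hφg'
      exact ⟨z, by rw [← e2]; exact p1, by rw [← e2]; exact p2⟩
    · obtain ⟨e1, z, e2⟩ := rayPt_eq_pos (hr w) h0 p3
      rw [if_pos h0, pos_mem_line hρ, hj]
      refine ⟨by rw [abs_of_pos h0]; exact e1, ?_⟩
      apply pres_of_cov h1 h2 h3 h4 hφg
      exact ⟨z, by rw [← e2]; exact p1, by rw [← e2]; exact p2⟩
  have mu := hmem u s₁ z₁ (hu ⟨s₁, φ, le_rfl, le_rfl, hφ1.le, hφ2.le, rfl⟩)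
  have mv := hmem v s₂ z₂ (hv ⟨s₂, φ, le_rfl, le_rfl, hφ1.le, hφ2.le, rfl⟩)
  have au : (sp ρ u s₁).natAbs = ρ u + 1 := by unfold sp; split_ifs <;> omega
  have av : (sp ρ v s₂).natAbs = ρ v + 1 := by unfold sp; split_ifs <;> omega
  have hρuv : ρ u ≠ ρ v := fun h => huv (hρ h)
  have hlt : sp ρ u s₁ < sp ρ v s₂ := by
    have m1 := mu.1
    have m2 := mv.1
    unfold sp
    split_ifs with c1 c2 c2
    · rw [abs_of_pos c1] at m1
      rw [abs_of_pos c2] at m2
      have : ¬ ρ v ≤ ρ u := fun h => by have := hρr v u h; linarith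
      omega
    · exfalso; exact c2 (by linarith)
    · omega
    · have c1' : s₁ < 0 := lt_of_le_of_ne (not_lt.1 c1) z₁
      have c2' : s₂ < 0 := lt_of_le_of_ne (not_lt.1 c2) z₂
      rw [abs_of_neg c1'] at m1
      rw [abs_of_neg c2'] at m2
      have : ¬ ρ u ≤ ρ v := fun h => by have := hρr u v h; linarith
      omega
  have hcard : (arcs (line (tm a b) rk ρ j) (sp ρ u s₁) (sp ρ v s₂)).card ≤ k := by
    refine le_trans ?_ hk
    set S := {w : Fin n | w ≠ u ∧ w ≠ v ∧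
      (arcSet (r w) (a w) (b w) ∩ coneSet s₁ s₂ b₁ b₂).Nonempty} with hS
    rw [Set.ncard_eq_toFinset_card' S]
    have hsub : arcs (line (tm a b) rk ρ j) (sp ρ u s₁) (sp ρ v s₂) ⊆
        S.toFinset.image fun w => ρ w + 1 := by
      intro y hy
      obtain ⟨⟨q, q1, q2, q3, rfl⟩, q5, q6⟩ := mem_arcs.1 hy
      rw [au] at q5
      rw [av] at q6
      rw [mem_image]
      obtain ⟨w, ⟨e1, e2⟩ | ⟨e1, e2⟩⟩ := mem_line.1 q1
      · refine ⟨w, ?_, by omega⟩
        rw [Set.mem_toFinset, hS]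
        have wu : w ≠ u := by rintro rfl; omega
        have wv : w ≠ v := by rintro rfl; omega
        refine ⟨wu, wv, rayPt (r w) φ, ?_, r w, φ, ?_, ?_, hφ1.le, hφ2.le, rfl⟩
        · obtain ⟨z, y1, y2⟩ := cov_of_pres h1 h2 h3 h4 e2
          exact ⟨φ + z * (2 * Real.pi), y1, y2, (rayPt_per _ _ _).symm⟩
        · -- `s₁ ≤ r w`
          rcases lt_or_gt_of_ne z₁ with c | c
          · have := hr w; linarith
          · have m1 := mu.1
            rw [abs_of_pos c] at m1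
            rw [m1]
            unfold sp at q2
            rw [if_pos c] at q2
            exact hρr u w (by omega)
        · have m2 := mv.1
          rcases lt_or_gt_of_ne z₂ with c | c
          · exfalso
            unfold sp at q3
            rw [if_neg (by linarith)] at q3
            omega
          · rw [abs_of_pos c] at m2
            rw [m2]
            unfold sp at q3
            rw [if_pos c] at q3
            exact hρr w v (by omega)
      · refine ⟨w, ?_, by omega⟩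
        rw [Set.mem_toFinset, hS]
        have wu : w ≠ u := by rintro rfl; omega
        have wv : w ≠ v := by rintro rfl; omega
        rw [hj, ← jt_shift] at e2
        refine ⟨wu, wv, rayPt (-(r w)) φ, ?_, -(r w), φ, ?_, ?_, hφ1.le, hφ2.le, rfl⟩
        · obtain ⟨z, y1, y2⟩ := cov_of_pres h1 h2 h3 h4 e2
          refine ⟨φ + Real.pi + z * (2 * Real.pi), y1, y2, ?_⟩
          rw [SA.rayPt_neg, neg_neg, rayPt_per]
        · have m1 := mu.1
          rcases lt_or_gt_of_ne z₁ with c | c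
          · rw [abs_of_neg c] at m1
            unfold sp at q2
            rw [if_neg (by linarith)] at q2
            have := hρr w u (by omega)
            linarith
          · exfalso
            unfold sp at q2
            rw [if_pos c] at q2
            omega
        · rcases lt_or_gt_of_ne z₂ with c | c
          · have m2 := mv.1
            rw [abs_of_neg c] at m2
            unfold sp at q3
            rw [if_neg (by linarith)] at q3
            have := hρr v w (by omega)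
            linarith
          · have := hr w; linarith
    exact (card_le_card hsub).trans card_image_le
  have hfin := occ_seen (line_config hn h1 h2 hρ hρn) (k := k) mu.2 mv.2 hlt
    (by rw [au, av]; omega) hcard
  rw [au, av] at hfin
  push_cast at hfin
  exact hfin

end

end Pool.Agent.P8H53.Arc
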