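import Pool.Agent.P8H53.Arc.Mult

set_option autoImplicit false

/-! The bound for rotating lines which always meet at least `k + 2` arcs. -/

namespace Pool.Agent.P8H53.Arc

open Finset

variable {M : ℕ} {n : ℤ} {Q : ℤ → Finset ℤ}

/-! ### sums over pairs -/

theorem B_card (k : ℕ) (n : ℤ) (L L₂ : Finset ℤ) : (B k n L L₂).card =
    ∑ v ∈ Icc 1 n, ∑ y ∈ (Icc 1 n).filter (· < v), ind (birth k L L₂ y v) := by
  classical
  unfold B
  rw [card_filter, sum_product_right]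
  apply sum_congr rfl
  intro v _
  rw [sum_filter]
  apply sum_congr rfl
  intro y _
  by_cases h1 : y < v <;> by_cases h2 : birth k L L₂ y v <;> simp [h1, h2, ind]

theorem B_sum (k : ℕ) (n : ℤ) (Q : ℤ → Finset ℤ) (T : ℕ) :
    ∑ i ∈ range T, (B k n (Q (i : ℤ)) (Q ((i : ℤ) + 1))).card =
      ∑ v ∈ Icc 1 n, ∑ y ∈ (Icc 1 n).filter (· < v), bn k Q T y v := by
  simp only [B_card]
  rw [sum_comm]
  apply sum_congr rfl
  intro v _
  rw [sum_comm]
  apply sum_congr rfl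
  intro y _
  unfold bn
  rw [cnt_eq_ind]

theorem B_self (k : ℕ) (n : ℤ) (L : Finset ℤ) : (B k n L L).card = 0 := by
  rw [card_eq_zero, eq_empty_iff_forall_notMem]
  intro p hp
  rw [mem_B] at hp
  rcases hp.2.2 with h | h
  · exact h.1 h.2
  · exact h.1 h.2

/-! ### losses -/

/-- the loss at a step -/
def loss (k : ℕ) (L L₂ : Finset ℤ) : ℕ :=
  ∑ p ∈ (L \ L₂) ∪ (L₂ \ L), (k + 1 - dd (L.erase p) p)

theorem loss_self (k : ℕ) (L : Finset ℤ) : loss k L L = 0 := by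
  unfold loss; simp

theorem loss_ins {k : ℕ} {L : Finset ℤ} {p : ℤ} (hp : p ∉ L) :
    loss k L (insert p L) = k + 1 - dd L p := by
  classical
  unfold loss
  have : (L \ insert p L) ∪ (insert p L \ L) = {p} := by
    ext q
    simp only [mem_union, mem_sdiff, mem_insert, mem_singleton]
    constructor
    · rintro (h | h)
      · exact absurd (Or.inr h.1) h.2
      · exact h.1.resolve_right h.2
    · rintro rfl
      exact Or.inr ⟨Or.inl rfl, hp⟩
  rw [this, sum_singleton, erase_eq_of_notMem hp]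

theorem loss_del {k : ℕ} {L : Finset ℤ} {p : ℤ} (hp : p ∉ L) :
    loss k (insert p L) L = k + 1 - dd L p := by
  classical
  unfold loss
  have : (insert p L \ L) ∪ (L \ insert p L) = {p} := by
    ext q
    simp only [mem_union, mem_sdiff, mem_insert, mem_singleton]
    constructor
    · rintro (h | h)
      · exact h.1.resolve_right h.2
      · exact absurd (Or.inr h.1) h.2
    · rintro rfl
      exact Or.inl ⟨Or.inl rfl, hp⟩
  rw [this, sum_singleton, erase_insert hp]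

theorem base_le {k : ℕ} {n p : ℤ} {A : ℤ → ℕ} (hA : ∀ v ∈ Icc 1 n, A v ≤ if v = p then 1 else 0) :
    ∑ v ∈ Icc 1 n, wd k n v * A v ≤ if 0 < p then wd k n p else 0 := by
  classical
  have h1 : ∑ v ∈ Icc 1 n, wd k n v * A v ≤ ∑ v ∈ Icc 1 n, if v = p then wd k n v else 0 := by
    apply sum_le_sum
    intro v hv
    have := hA v hv
    split_ifs with h
    · rw [if_pos h] at this
      calc wd k n v * A v ≤ wd k n v * 1 := Nat.mul_le_mul_left _ this
        _ = wd k n v := Nat.mul_one _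
    · rw [if_neg h] at this
      have : A v = 0 := by omega
      rw [this]; simp
  rw [sum_ite_eq'] at h1
  refine h1.trans ?_
  split_ifs with h2 h3
  · exact le_rfl
  · rw [mem_Icc] at h2; omega
  · exact Nat.zero_le _
  · exact Nat.zero_le _

theorem Step.loss_ge {k : ℕ} {n : ℤ} {L L₂ : Finset ℤ} (h : Step L L₂)
    (hL : ∀ q ∈ L, (q.natAbs : ℤ) ≤ n) (hL₂ : ∀ q ∈ L₂, (q.natAbs : ℤ) ≤ n) :
    ∑ v ∈ Icc 1 n, wd k n v * (ind (v ∉ L ∧ v ∈ L₂) + ind (v ∈ L ∧ v ∉ L₂)) +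
      ∑ v ∈ Icc 1 n, ind (v ∉ L ∧ v ∉ L₂ ∧ W k n v L ≠ W k n v L₂) ≤ loss k L L₂ := by
  classical
  rcases h with h | ⟨p, hp, h⟩ | ⟨p, hp, h⟩
  · subst h
    rw [loss_self]
    apply le_of_eq
    rw [Nat.add_eq_zero_iff]
    constructor
    · apply sum_eq_zero
      intro v _
      rw [ind_neg (fun h => h.1 h.2), ind_neg (fun h => h.2 h.1)]; simp
    · apply sum_eq_zero
      intro v _
      rw [ind_neg (fun h => h.2.2 rfl)]
  · subst h
    rw [loss_ins hp]
    refine le_trans (Nat.add_le_add (base_le (p := p) ?_) ?_) (toggle_bound (k := k) (n := n) hL)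
    · intro v _
      rw [ind_neg (P := v ∈ L ∧ v ∉ insert p L) (fun h => h.2 (mem_insert_of_mem h.1))]
      split_ifs with hv
      · exact (ind_le _)
      · rw [ind_neg]
        rintro ⟨h1, h2⟩
        exact hv ((mem_insert.1 h2).resolve_right h1)
    · rw [sum_ind_eq]
      apply card_le_card
      intro v hv
      rw [mem_filter] at hv ⊢
      exact ⟨hv.1, hv.2.2⟩
  · subst h
    rw [loss_del hp]
    refine le_trans (Nat.add_le_add (base_le (p := p) ?_) ?_) (toggle_bound (k := k) (n := n) hL₂)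
    · intro v _
      rw [ind_neg (P := v ∉ insert p L₂ ∧ v ∈ L₂) (fun h => h.1 (mem_insert_of_mem h.2))]
      split_ifs with hv
      · rw [zero_add]; exact (ind_le _)
      · rw [ind_neg]
        rintro ⟨h1, h2⟩
        exact hv ((mem_insert.1 h1).resolve_right h2)
    · rw [sum_ind_eq]
      apply card_le_card
      intro v hv
      rw [mem_filter] at hv ⊢
      exact ⟨hv.1, hv.2.1, fun h => hv.2.2.2 h.symm⟩

/-! ### event bounds -/

theorem distinct_le (L : Finset ℤ) (x : ℤ) :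
    ((insert x L).image Int.natAbs).card ≤ 1 + (dd L x + dd (ng L) (-x)) := by
  classical
  have hs : (insert x L).image Int.natAbs ⊆ {x.natAbs} ∪
      ((((L.filter (x < ·)).image Int.natAbs).filter (· ≠ x.natAbs)) ∪
        ((((ng L).filter (-x < ·)).image Int.natAbs).filter (· ≠ (-x).natAbs))) := by
    intro y hy
    rw [mem_image] at hy
    obtain ⟨q, hq, rfl⟩ := hy
    rw [mem_union, mem_union, mem_above, mem_above, mem_singleton]
    by_cases h : q.natAbs = x.natAbs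
    · exact Or.inl h
    · right
      have hqL : q ∈ L := (mem_insert.1 hq).resolve_left (by rintro rfl; exact h rfl)
      rcases lt_or_ge x q with h1 | h1
      · exact Or.inl ⟨⟨q, hqL, h1, rfl⟩, h⟩
      · right
        refine ⟨⟨-q, by rw [mem_ng, neg_neg]; exact hqL, by omega, Int.natAbs_neg q⟩, ?_⟩
        rw [Int.natAbs_neg]; exact h
  have h1 := (card_le_card hs).trans (card_union_le _ _)
  have h2 := card_union_le (((L.filter (x < ·)).image Int.natAbs).filter (· ≠ x.natAbs))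
    ((((ng L).filter (-x < ·)).image Int.natAbs).filter (· ≠ (-x).natAbs))
  rw [card_singleton] at h1
  exact h1.trans (Nat.add_le_add_left h2 1)

/-- births plus losses -/
noncomputable def cost (k : ℕ) (n : ℤ) (L L₂ : Finset ℤ) : ℕ := (B k n L L₂).card + loss k L L₂

noncomputable def Fs (n : ℤ) (L L₂ : Finset ℤ) : ℕ := ∑ x ∈ Icc 1 n, ind (x ∉ L ∧ x ∈ L₂)
noncomputable def Ge (n : ℤ) (L L₂ : Finset ℤ) : ℕ := ∑ x ∈ Icc 1 n, ind (x ∈ L ∧ x ∉ L₂)

theorem ins_pos {k : ℕ} {n x : ℤ} {L : Finset ℤ} (hx : 0 < x) (hxn : x ≤ n) (hL : x ∉ L) :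
    cost k n L (insert x L) + cost k n (ng L) (insert (-x) (ng L)) ≤
      (k + 1) * (2 * Fs n L (insert x L)) := by
  classical
  have h1 := start_bound (k := k) (n := n) hx hL
  unfold cost
  rw [loss_ins hL, loss_ins (p := -x) (L := ng L) (by rw [mem_ng, neg_neg]; exact hL)]
  have h2 : 1 ≤ Fs n L (insert x L) := by
    unfold Fs
    rw [← ind_pos (P := x ∉ L ∧ x ∈ insert x L) ⟨hL, mem_insert_self _ _⟩]
    exact single_le_sum (f := fun y => ind (y ∉ L ∧ y ∈ insert x L))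
      (fun _ _ => Nat.zero_le _) (mem_Icc.2 ⟨by omega, hxn⟩)
  have h3 : (k + 1) * (2 * 1) ≤ (k + 1) * (2 * Fs n L (insert x L)) :=
    Nat.mul_le_mul_left _ (Nat.mul_le_mul_left _ h2)
  omega

theorem del_pos {k : ℕ} {n x : ℤ} {L : Finset ℤ} (hx : 0 < x) (hxn : x ≤ n) (hL : x ∉ L)
    (hk : k + 2 ≤ ((insert x L).image Int.natAbs).card) :
    cost k n (insert x L) L + cost k n (insert (-x) (ng L)) (ng L) ≤
      (k + 1) * Ge n (insert x L) L := by
  classical
  have h0 := distinct_le L x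
  have h1 := end_bound (k := k) (n := n) hx hL (by omega)
  unfold cost
  rw [loss_del hL, loss_del (p := -x) (L := ng L) (by rw [mem_ng, neg_neg]; exact hL)]
  have h2 : 1 ≤ Ge n (insert x L) L := by
    unfold Ge
    rw [← ind_pos (P := x ∈ insert x L ∧ x ∉ L) ⟨mem_insert_self _ _, hL⟩]
    exact single_le_sum (f := fun y => ind (y ∈ insert x L ∧ y ∉ L))
      (fun _ _ => Nat.zero_le _) (mem_Icc.2 ⟨by omega, hxn⟩)
  have h3 : (k + 1) * 1 ≤ (k + 1) * Ge n (insert x L) L := Nat.mul_le_mul_left _ h2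
  omega

theorem image_ng (L : Finset ℤ) : (ng L).image Int.natAbs = L.image Int.natAbs := by
  classical
  ext y
  rw [mem_image, mem_image]
  constructor
  · rintro ⟨q, hq, rfl⟩
    rw [mem_ng] at hq
    exact ⟨-q, hq, Int.natAbs_neg q⟩
  · rintro ⟨q, hq, rfl⟩
    exact ⟨-q, by rw [mem_ng, neg_neg]; exact hq, Int.natAbs_neg q⟩

theorem Step.pair {k : ℕ} {n : ℤ} {L L₂ : Finset ℤ} (h : Step L L₂)
    (hL : ∀ q ∈ L, q ≠ 0 ∧ (q.natAbs : ℤ) ≤ n) (hL₂ : ∀ q ∈ L₂, q ≠ 0 ∧ (q.natAbs : ℤ) ≤ n)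
    (hk : k + 2 ≤ (L.image Int.natAbs).card) :
    cost k n L L₂ + cost k n (ng L) (ng L₂) ≤
      (k + 1) * (2 * (Fs n L L₂ + Fs n (ng L) (ng L₂)) + (Ge n L L₂ + Ge n (ng L) (ng L₂))) := by
  classical
  rcases h with h | ⟨p, hp, h⟩ | ⟨p, hp, h⟩
  · subst h
    unfold cost
    rw [B_self, B_self, loss_self, loss_self]
    exact Nat.zero_le _
  · subst h
    have hpr := hL₂ p (mem_insert_self _ _)
    rcases lt_or_gt_of_ne hpr.1 with h0 | h0
    · have hng : p = - -p := (neg_neg p).symm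
      have h1 := ins_pos (k := k) (n := n) (x := -p) (L := ng L) (by omega) (by omega)
        (by rw [mem_ng, neg_neg]; exact hp)
      rw [neg_neg, ng_ng] at h1
      rw [ng_insert]
      refine le_trans (by rw [add_comm]; exact h1) (Nat.mul_le_mul_left _ ?_)
      omega
    · have h1 := ins_pos (k := k) (n := n) (x := p) (L := L) h0 (by omega) hp
      rw [ng_insert]
      refine le_trans h1 (Nat.mul_le_mul_left _ ?_)
      omega
  · subst h
    have hpr := hL p (mem_insert_self _ _)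
    rcases lt_or_gt_of_ne hpr.1 with h0 | h0
    · have h1 := del_pos (k := k) (n := n) (x := -p) (L := ng L₂) (by omega) (by omega)
        (by rw [mem_ng, neg_neg]; exact hp) (by rw [← ng_insert, image_ng]; exact hk)
      rw [neg_neg, ng_ng] at h1
      rw [ng_insert]
      refine le_trans (by rw [add_comm]; exact h1) (Nat.mul_le_mul_left _ ?_)
      omega
    · have h1 := del_pos (k := k) (n := n) (x := p) (L := L₂) h0 (by omega) hp hk
      rw [ng_insert]
      refine le_trans h1 (Nat.mul_le_mul_left _ ?_)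
      omega

/-! ### full arcs -/

theorem corr_bound {k : ℕ} {n y : ℤ} {L : Finset ℤ} (hL : ∀ q ∈ L, (q.natAbs : ℤ) ≤ n)
    (hy : 0 < y) :
    ∑ v ∈ (Icc 1 n).filter (y < ·), (ind (S k L y v) + ind (0 < wd k n v)) ≤
      2 * min (k + 1) (n - y).toNat := by
  classical
  rw [sum_add_distrib, sum_ind_eq _ (fun v => S k L y v), sum_ind_eq _ (fun v => 0 < wd k n v)]
  have h1 : (((Icc 1 n).filter (y < ·)).filter fun v => S k L y v).card ≤
      min (k + 1) (n - y).toNat := by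
    set N := L.filter (y < ·) with hN
    have hs : (((Icc 1 n).filter (y < ·)).filter fun v => S k L y v) ⊆
        N.filter fun q => (N.filter (· < q)).card < k + 1 := by
      intro v hv
      rw [mem_filter, mem_filter] at hv
      obtain ⟨⟨_, hyv⟩, _, hvL, hc⟩ := hv
      rw [arcs_pos hy] at hc
      refine mem_filter.2 ⟨mem_filter.2 ⟨hvL, hyv⟩, ?_⟩
      rw [hN, filter_filter]
      omega
    have h2 := card_le_card hs
    rw [card_Bot] at h2
    have h3 : N ⊆ Icc (y + 1) n := by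
      intro v hv
      rw [mem_filter] at hv
      have := hL v hv.1
      rw [mem_Icc]; omega
    have h4 := card_le_card h3
    rw [Int.card_Icc] at h4
    omega
  have h2 : (((Icc 1 n).filter (y < ·)).filter fun v => 0 < wd k n v).card ≤
      min (k + 1) (n - y).toNat := by
    have hs : (((Icc 1 n).filter (y < ·)).filter fun v => 0 < wd k n v) ⊆
        Icc (y + 1) n ∩ Icc (n - k) n := by
      intro v hv
      rw [mem_filter, mem_filter, mem_Icc] at hv
      unfold wd at hv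
      rw [mem_inter, mem_Icc, mem_Icc]
      omega
    have h3 := card_le_card (hs.trans inter_subset_left)
    have h4 := card_le_card (hs.trans inter_subset_right)
    rw [Int.card_Icc] at h3 h4
    omega
  omega

/-! ### the total -/

theorem sum_cnt (T : ℕ) (I : Finset ℤ) (P : ℤ → ℤ → Prop) :
    ∑ i ∈ range T, ∑ v ∈ I, ind (P v (i : ℤ)) = ∑ v ∈ I, cnt T (P v) := by
  rw [sum_comm]
  apply sum_congr rfl
  intro v _
  rw [cnt_eq_ind]

theorem Config.cost_sum (hQ : Config M n Q) {k : ℕ}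
    (hk : ∀ j, k + 2 ≤ ((Q j).image Int.natAbs).card) :
    ∑ i ∈ range (2 * M), cost k n (Q (i : ℤ)) (Q ((i : ℤ) + 1)) ≤
      3 * (k + 1) * ∑ x ∈ Icc 1 n, st Q (2 * M) x := by
  have hper : ∀ j, Q (j + ((2 * M : ℕ) : ℤ) + 1) = Q (j + 1) := by
    intro j
    have h' : j + ((2 * M : ℕ) : ℤ) + 1 = j + 1 + ((2 * M : ℕ) : ℤ) := by ring
    rw [h', hQ.per (j + 1)]
  have hmir : ∀ j, Q (j + M + 1) = ng (Q (j + 1)) := by
    intro j
    have h' : j + (M : ℤ) + 1 = j + 1 + M := by ring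
    rw [h', hQ.mir (j + 1)]
  have shift : ∀ f : Finset ℤ → Finset ℤ → ℕ, ∑ i ∈ range (2 * M),
      f (ng (Q (i : ℤ))) (ng (Q ((i : ℤ) + 1))) = ∑ i ∈ range (2 * M), f (Q i) (Q (i + 1)) := by
    intro f
    have := sum_shift (fun j => f (Q j) (Q (j + 1))) (2 * M)
      (fun j => by simp only [hQ.per j, hper j]) M
    rw [← this]
    apply sum_congr rfl
    intro i _
    rw [add_comm (M : ℤ) i, hQ.mir i, hmir i]
  have h1 := shift (cost k n)
  have h2 := shift (Fs n)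
  have h3 := shift (Ge n)
  have h4 : ∑ i ∈ range (2 * M), Fs n (Q (i : ℤ)) (Q ((i : ℤ) + 1)) =
      ∑ x ∈ Icc 1 n, st Q (2 * M) x :=
    sum_cnt (2 * M) (Icc 1 n) (fun x i => x ∉ Q i ∧ x ∈ Q (i + 1))
  have h5 : ∑ i ∈ range (2 * M), Ge n (Q (i : ℤ)) (Q ((i : ℤ) + 1)) =
      ∑ x ∈ Icc 1 n, st Q (2 * M) x := by
    rw [← sum_congr rfl (fun x _ => hQ.en_eq_st x)]
    exact sum_cnt (2 * M) (Icc 1 n) (fun x i => x ∈ Q i ∧ x ∉ Q (i + 1))
  have h6 : ∑ i ∈ range (2 * M), (cost k n (Q (i : ℤ)) (Q ((i : ℤ) + 1)) +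
      cost k n (ng (Q (i : ℤ))) (ng (Q ((i : ℤ) + 1)))) ≤
      ∑ i ∈ range (2 * M), ((k + 1) * (2 * (Fs n (Q (i : ℤ)) (Q ((i : ℤ) + 1)) +
        Fs n (ng (Q (i : ℤ))) (ng (Q ((i : ℤ) + 1)))) + (Ge n (Q (i : ℤ)) (Q ((i : ℤ) + 1)) +
          Ge n (ng (Q (i : ℤ))) (ng (Q ((i : ℤ) + 1)))))) :=
    sum_le_sum fun i _ => (hQ.step i).pair (hQ.rng i) (hQ.rng (i + 1)) (hk i)
  rw [← mul_sum, sum_add_distrib, sum_add_distrib, ← mul_sum, sum_add_distrib, sum_add_distrib,
    h1, h2, h3, h4, h5] at h6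
  nlinarith

theorem Config.loss_sum (hQ : Config M n Q) (k : ℕ) :
    2 * ∑ v ∈ Icc 1 n, wd k n v * st Q (2 * M) v + ∑ v ∈ Icc 1 n, Nv k n Q (2 * M) v ≤
      ∑ i ∈ range (2 * M), loss k (Q (i : ℤ)) (Q ((i : ℤ) + 1)) := by
  have h1 : ∑ i ∈ range (2 * M), (∑ v ∈ Icc 1 n, wd k n v *
        (ind (v ∉ Q (i : ℤ) ∧ v ∈ Q ((i : ℤ) + 1)) + ind (v ∈ Q (i : ℤ) ∧ v ∉ Q ((i : ℤ) + 1))) +
      ∑ v ∈ Icc 1 n, ind (v ∉ Q (i : ℤ) ∧ v ∉ Q ((i : ℤ) + 1) ∧
        W k n v (Q (i : ℤ)) ≠ W k n v (Q ((i : ℤ) + 1)))) ≤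
      ∑ i ∈ range (2 * M), loss k (Q (i : ℤ)) (Q ((i : ℤ) + 1)) :=
    sum_le_sum fun i _ => (hQ.step i).loss_ge (fun q hq => (hQ.rng i q hq).2)
      (fun q hq => (hQ.rng (i + 1) q hq).2)
  rw [sum_add_distrib, sum_cnt (2 * M) (Icc 1 n)
    (fun v i => v ∉ Q i ∧ v ∉ Q (i + 1) ∧ W k n v (Q i) ≠ W k n v (Q (i + 1))), sum_comm] at h1
  refine le_trans (Nat.add_le_add (le_of_eq ?_) le_rfl) h1
  rw [mul_sum]
  apply sum_congr rfl
  intro v _
  rw [← mul_sum, sum_add_distrib, ← cnt_eq_ind (2 * M) (fun i => v ∉ Q i ∧ v ∈ Q (i + 1)),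
    ← cnt_eq_ind (2 * M) (fun i => v ∈ Q i ∧ v ∉ Q (i + 1))]
  have h2 : cnt (2 * M) (fun i => v ∉ Q i ∧ v ∈ Q (i + 1)) = st Q (2 * M) v := rfl
  have h3 : cnt (2 * M) (fun i => v ∈ Q i ∧ v ∉ Q (i + 1)) = en Q (2 * M) v := rfl
  rw [h2, h3, hQ.en_eq_st v]
  ring

theorem Config.zz_sum (hQ : Config M n Q) {k : ℕ} {v : ℤ} (hv : 0 < v) (hvn : v ≤ n)
    (hst : st Q (2 * M) v ≠ 0) : (Zv k n Q v).card ≤
      ∑ y ∈ (Icc 1 n).filter (· < v), ind (zz k n Q (2 * M) y v) := by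
  classical
  rw [sum_ind_eq _ (fun y => zz k n Q (2 * M) y v)]
  obtain ⟨s, s1, s2⟩ := exists_start hst
  have hW : ∀ q ∈ Zv k n Q v, q ∈ W k n v (Q s) := fun q hq => (mem_Zv.1 hq).2 s s1
  apply card_le_card_of_injOn (fun q => (q.natAbs : ℤ))
  · intro q hq
    rw [mem_coe] at hq
    have h1 := mem_W (hW q hq)
    have h2 := hQ.rng s q h1.1
    rw [mem_coe, mem_filter, mem_filter, mem_Icc]
    refine ⟨⟨⟨?_, h2.2⟩, h1.2.1⟩, hst, q, hq, rfl⟩
    have := h2.1
    simp only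
    omega
  · intro q hq q' hq' h
    rw [mem_coe] at hq hq'
    simp only at h
    have h1 := hW q hq
    have h2 := hW q' hq'
    unfold W at h1 h2
    exact natAbs_inj_R (mem_Top.1 h1).1 (mem_Top.1 h2).1 (by omega)

theorem Config.good (hQ : Config M n Q) {k : ℕ}
    (hk : ∀ j, k + 2 ≤ ((Q j).image Int.natAbs).card) :
    ∑ v ∈ Icc 1 n, ∑ y ∈ (Icc 1 n).filter (· < v), ind (seen k Q y v) ≤
      3 * ∑ x ∈ Icc 1 n, min (k + 1) (n - x).toNat := by
  classical
  have h1 := hQ.cost_sum hk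
  unfold cost at h1
  rw [sum_add_distrib, B_sum] at h1
  have h2 := hQ.loss_sum k
  have h3 : ∑ v ∈ Icc 1 n, ∑ y ∈ (Icc 1 n).filter (· < v),
      (ind (seen k Q y v) + ind (zz k n Q (2 * M) y v)) ≤
      ∑ v ∈ Icc 1 n, ∑ y ∈ (Icc 1 n).filter (· < v), (bn k Q (2 * M) y v +
      (ind ((∀ j, y ∈ Q j) ∧ S k (Q 0) y v) + ind ((∀ j, y ∈ Q j) ∧ 0 < wd k n v))) := by
    apply sum_le_sum
    intro v _
    apply sum_le_sum
    intro y hy
    rw [mem_filter, mem_Icc] at hy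
    exact hQ.mult (by omega) hy.2
  simp only [sum_add_distrib] at h3
  have h4 : ∑ v ∈ Icc 1 n, wd k n v * st Q (2 * M) v ≤
      ∑ v ∈ Icc 1 n, ∑ y ∈ (Icc 1 n).filter (· < v), ind (zz k n Q (2 * M) y v) +
      ∑ v ∈ Icc 1 n, Nv k n Q (2 * M) v := by
    rw [← sum_add_distrib]
    apply sum_le_sum
    intro v hv
    rw [mem_Icc] at hv
    by_cases hst : st Q (2 * M) v = 0
    · rw [hst]; simp
    · have a1 := hQ.st_le_one (x := v) (by omega)
      have a2 : st Q (2 * M) v = 1 := by omega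
      have a3 := hQ.Z_card hk (v := v) (by omega) hv.2 hst
      have a4 := hQ.zz_sum (k := k) (v := v) (by omega) hv.2 hst
      rw [a2, mul_one]
      exact a3.trans (Nat.add_le_add_right a4 _)
  have h5 : ∑ v ∈ Icc 1 n, ∑ y ∈ (Icc 1 n).filter (· < v), ind ((∀ j, y ∈ Q j) ∧ S k (Q 0) y v) +
      ∑ v ∈ Icc 1 n, ∑ y ∈ (Icc 1 n).filter (· < v), ind ((∀ j, y ∈ Q j) ∧ 0 < wd k n v) ≤
      ∑ y ∈ Icc 1 n, if st Q (2 * M) y = 0 then 2 * min (k + 1) (n - y).toNat else 0 := by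
    have hsw : ∀ g : ℤ → ℤ → ℕ, ∑ v ∈ Icc 1 n, ∑ y ∈ (Icc 1 n).filter (· < v), g y v =
        ∑ y ∈ Icc 1 n, ∑ v ∈ (Icc 1 n).filter (y < ·), g y v := by
      intro g
      simp only [sum_filter]
      rw [sum_comm]
    rw [hsw, hsw, ← sum_add_distrib]
    apply sum_le_sum
    intro y hy
    rw [mem_Icc] at hy
    by_cases hf : ∀ j, y ∈ Q j
    · have hst : st Q (2 * M) y = 0 := by
        unfold st
        by_contra h
        obtain ⟨i, hi⟩ := exists_of_cnt h
        exact hi.1 (hf i)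
      rw [if_pos hst]
      refine le_trans (le_of_eq ?_) (corr_bound (k := k) (L := Q 0)
        (fun q hq => (hQ.rng 0 q hq).2) (show 0 < y by omega))
      rw [sum_add_distrib]
      congr 1
      · apply sum_congr rfl
        intro v _
        congr 1
        exact propext ⟨fun h => h.2, fun h => ⟨hf, h⟩⟩
      · apply sum_congr rfl
        intro v _
        congr 1
        exact propext ⟨fun h => h.2, fun h => ⟨hf, h⟩⟩
    · have z1 : ∑ v ∈ (Icc 1 n).filter (y < ·), ind ((∀ j, y ∈ Q j) ∧ S k (Q 0) y v) = 0 :=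
        sum_eq_zero fun v _ => ind_neg fun h => hf h.1
      have z2 : ∑ v ∈ (Icc 1 n).filter (y < ·), ind ((∀ j, y ∈ Q j) ∧ 0 < wd k n v) = 0 :=
        sum_eq_zero fun v _ => ind_neg fun h => hf h.1
      rw [z1, z2]
      exact Nat.zero_le _
  have h6 : 3 * (k + 1) * ∑ x ∈ Icc 1 n, st Q (2 * M) x +
      ∑ y ∈ Icc 1 n, (if st Q (2 * M) y = 0 then 2 * min (k + 1) (n - y).toNat else 0) ≤
      3 * ∑ x ∈ Icc 1 n, min (k + 1) (n - x).toNat + 3 * ∑ v ∈ Icc 1 n, wd k n v * st Q (2 * M) v := by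
    rw [mul_sum, mul_sum, mul_sum, ← sum_add_distrib, ← sum_add_distrib]
    apply sum_le_sum
    intro x hx
    rw [mem_Icc] at hx
    have a1 := hQ.st_le_one (x := x) (by omega)
    split_ifs with h
    · rw [h]; omega
    · have a2 : st Q (2 * M) x = 1 := by omega
      rw [a2]
      unfold wd
      omega
  omega

end Pool.Agent.P8H53.Arc
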