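import Mathlib

set_option autoImplicit false

/-! Lines of occurrences: the largest elements of a finite set of integers, nearest occurrences. -/

namespace Pool.Agent.P8H53.Arc

open Finset

/-- the `w` largest elements -/
def Top (w : ℕ) (N : Finset ℤ) : Finset ℤ := N.filter fun q => (N.filter (q < ·)).card < w

theorem mem_Top {w : ℕ} {N : Finset ℤ} {q : ℤ} :
    q ∈ Top w N ↔ q ∈ N ∧ (N.filter (q < ·)).card < w := by
  unfold Top; rw [mem_filter]

theorem card_Top (w : ℕ) (N : Finset ℤ) : (Top w N).card = min w N.card := by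
  classical
  induction N using Finset.induction_on_min with
  | empty => simp [Top]
  | insert a s ha ih =>
    have has : a ∉ s := fun h => lt_irrefl _ (ha a h)
    have h1 : ∀ q ∈ s, ((insert a s).filter (q < ·)) = s.filter (q < ·) := by
      intro q hq
      rw [filter_insert, if_neg (not_lt.mpr (ha q hq).le)]
    have h2 : ((insert a s).filter (a < ·)) = s := by
      rw [filter_insert, if_neg (lt_irrefl a)]
      exact filter_true_of_mem ha
    have h3 : Top w (insert a s) = if s.card < w then insert a (Top w s) else Top w s := by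
      ext q
      rw [mem_Top, mem_insert]
      by_cases hqa : q = a
      · subst hqa
        rw [h2]
        split_ifs with h
        · simp [h]
        · simp only [true_or, h, and_false, false_iff]
          intro hq
          exact has (mem_Top.1 hq).1
      · constructor
        · rintro ⟨hq | hq, hc⟩
          · exact absurd hq hqa
          · rw [h1 q hq] at hc
            split_ifs with h
            · exact mem_insert_of_mem (mem_Top.2 ⟨hq, hc⟩)
            · exact mem_Top.2 ⟨hq, hc⟩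
        · intro hq
          have : q ∈ Top w s := by
            split_ifs at hq with h
            · exact (mem_insert.1 hq).resolve_left hqa
            · exact hq
          have h4 := mem_Top.1 this
          exact ⟨Or.inr h4.1, by rw [h1 q h4.1]; exact h4.2⟩
    rw [h3, card_insert_of_notMem has]
    split_ifs with h
    · rw [card_insert_of_notMem (fun hq => has (mem_Top.1 hq).1), ih]
      omega
    · rw [ih]
      omega

/-- mirror image of a line -/
def ng (L : Finset ℤ) : Finset ℤ := L.image (fun q => -q)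

@[simp] theorem mem_ng {L : Finset ℤ} {p : ℤ} : p ∈ ng L ↔ -p ∈ L := by
  unfold ng
  rw [mem_image]
  constructor
  · rintro ⟨q, hq, rfl⟩
    rwa [neg_neg]
  · intro h
    exact ⟨-p, h, neg_neg p⟩

@[simp] theorem ng_ng (L : Finset ℤ) : ng (ng L) = L := by
  ext p; simp

theorem ng_insert (p : ℤ) (L : Finset ℤ) : ng (insert p L) = insert (-p) (ng L) := by
  ext q
  simp only [mem_ng, mem_insert]
  constructor
  · rintro (h | h)
    · left; omega
    · right; exact h
  · rintro (h | h)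
    · left; omega
    · right; exact h

theorem card_ng (L : Finset ℤ) : (ng L).card = L.card :=
  card_image_of_injective _ neg_injective

/-- bottom elements, the mirrored statement -/
theorem card_Bot (w : ℕ) (N : Finset ℤ) :
    (N.filter fun q => (N.filter (· < q)).card < w).card = min w N.card := by
  classical
  rw [← card_ng N, ← card_Top w (ng N), ← card_ng]
  congr 1
  ext q
  rw [mem_ng, mem_filter, mem_Top, mem_ng]
  have : (N.filter (· < -q)).card = ((ng N).filter (q < ·)).card := by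
    rw [← card_ng]
    congr 1
    ext p
    simp only [mem_ng, mem_filter]
    constructor
    · rintro ⟨h1, h2⟩; exact ⟨h1, by omega⟩
    · rintro ⟨h1, h2⟩; exact ⟨h1, by omega⟩
  rw [this]

/-- nearest occurrences below `x` of arcs other than `|x|` -/
def Nb (L : Finset ℤ) (x : ℤ) : Finset ℤ :=
  L.filter fun q => q < x ∧ q.natAbs ≠ x.natAbs ∧ ∀ q' ∈ L, q < q' → q' < x → q'.natAbs ≠ q.natAbs

theorem mem_Nb {L : Finset ℤ} {x q : ℤ} : q ∈ Nb L x ↔ q ∈ L ∧ q < x ∧ q.natAbs ≠ x.natAbs ∧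
    ∀ q' ∈ L, q < q' → q' < x → q'.natAbs ≠ q.natAbs := by
  unfold Nb; rw [mem_filter]

/-- distinct arcs strictly between `s` and `t`, other than `|s|` and `|t|` -/
def arcs (L : Finset ℤ) (s t : ℤ) : Finset ℕ :=
  ((L.filter fun q => s < q ∧ q < t).image Int.natAbs).filter fun y => y ≠ s.natAbs ∧ y ≠ t.natAbs

theorem mem_arcs {L : Finset ℤ} {s t : ℤ} {y : ℕ} : y ∈ arcs L s t ↔
    (∃ q ∈ L, s < q ∧ q < t ∧ q.natAbs = y) ∧ y ≠ s.natAbs ∧ y ≠ t.natAbs := by
  unfold arcs
  rw [mem_filter, mem_image]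
  constructor
  · rintro ⟨⟨q, hq, rfl⟩, h⟩
    rw [mem_filter] at hq
    exact ⟨⟨q, hq.1, hq.2.1, hq.2.2, rfl⟩, h⟩
  · rintro ⟨⟨q, h1, h2, h3, rfl⟩, h⟩
    exact ⟨⟨q, mem_filter.2 ⟨h1, h2, h3⟩, rfl⟩, h⟩

theorem arcs_ng (L : Finset ℤ) (s t : ℤ) : arcs (ng L) (-t) (-s) = arcs L s t := by
  ext y
  simp only [mem_arcs, mem_ng, Int.natAbs_neg]
  constructor
  · rintro ⟨⟨q, h1, h2, h3, h4⟩, h5, h6⟩
    exact ⟨⟨-q, h1, by omega, by omega, by rw [Int.natAbs_neg]; exact h4⟩, h6, h5⟩
  · rintro ⟨⟨q, h1, h2, h3, h4⟩, h5, h6⟩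
    exact ⟨⟨-q, by rwa [neg_neg], by omega, by omega, by rw [Int.natAbs_neg]; exact h4⟩, h6, h5⟩

theorem natAbs_injOn_Nb (L : Finset ℤ) (x : ℤ) : Set.InjOn Int.natAbs (Nb L x : Set ℤ) := by
  intro a ha b hb hab
  rw [mem_coe, mem_Nb] at ha hb
  rcases lt_trichotomy a b with h | h | h
  · exact absurd hab.symm (ha.2.2.2 b hb.1 h hb.2.1)
  · exact h
  · exact absurd hab (hb.2.2.2 a ha.1 h ha.2.1)

theorem exists_nearest {L : Finset ℤ} {x p : ℤ} (hp : p ∈ L) (hpx : p < x)
    (hne : p.natAbs ≠ x.natAbs) : ∃ q ∈ Nb L x, p ≤ q ∧ q.natAbs = p.natAbs := by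
  classical
  obtain ⟨q, hq, hmax⟩ := exists_max_image
    (L.filter fun q => q < x ∧ p ≤ q ∧ q.natAbs = p.natAbs) id
    ⟨p, mem_filter.2 ⟨hp, hpx, le_rfl, rfl⟩⟩
  rw [mem_filter] at hq
  refine ⟨q, mem_Nb.2 ⟨hq.1, hq.2.1, by rw [hq.2.2.2]; exact hne, ?_⟩, hq.2.2.1, hq.2.2.2⟩
  intro q' hq' h1 h2 h3
  have := hmax q' (mem_filter.2 ⟨hq', h2, by omega, by rw [h3]; exact hq.2.2.2⟩)
  simp only [id] at this
  omega

theorem arcs_card {L : Finset ℤ} {x q : ℤ} (hq : q ∈ Nb L x) :
    (arcs L q x).card = ((Nb L x).filter (q < ·)).card := by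
  classical
  rw [← card_image_of_injOn (s := (Nb L x).filter (q < ·)) (f := Int.natAbs)
    ((natAbs_injOn_Nb L x).mono (by intro a ha; exact (mem_filter.1 ha).1))]
  congr 1
  have hq' := mem_Nb.1 hq
  ext y
  rw [mem_arcs, mem_image]
  constructor
  · rintro ⟨⟨p, h1, h2, h3, rfl⟩, h4, h5⟩
    obtain ⟨r, hr, hpr, hre⟩ := exists_nearest h1 h3 h5
    exact ⟨r, mem_filter.2 ⟨hr, by omega⟩, hre⟩
  · rintro ⟨p, hp, rfl⟩
    rw [mem_filter] at hp
    have hp' := mem_Nb.1 hp.1
    exact ⟨⟨p, hp'.1, hp.2, hp'.2.1, rfl⟩, hq'.2.2.2 p hp'.1 hp.2 hp'.2.1, hp'.2.2.1⟩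

/-- number of distinct arcs other than `|p|` above `p` -/
def dd (L : Finset ℤ) (p : ℤ) : ℕ :=
  (((L.filter (p < ·)).image Int.natAbs).filter (· ≠ p.natAbs)).card

theorem mem_above {L : Finset ℤ} {p : ℤ} {y : ℕ} :
    y ∈ ((L.filter (p < ·)).image Int.natAbs).filter (· ≠ p.natAbs) ↔
      (∃ q ∈ L, p < q ∧ q.natAbs = y) ∧ y ≠ p.natAbs := by
  rw [mem_filter, mem_image]
  constructor
  · rintro ⟨⟨q, hq, rfl⟩, h⟩
    rw [mem_filter] at hq
    exact ⟨⟨q, hq.1, hq.2, rfl⟩, h⟩
  · rintro ⟨⟨q, h1, h2, rfl⟩, h⟩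
    exact ⟨⟨q, mem_filter.2 ⟨h1, h2⟩, rfl⟩, h⟩

/-- below `x`: distinct arcs other than `|x|` -/
theorem dd_ng (L : Finset ℤ) (x : ℤ) : dd (ng L) (-x) = (Nb L x).card := by
  classical
  rw [← card_image_of_injOn (natAbs_injOn_Nb L x)]
  unfold dd
  congr 1
  ext y
  rw [mem_above, mem_image]
  constructor
  · rintro ⟨⟨p, h1, h2, rfl⟩, h3⟩
    rw [mem_ng] at h1
    rw [Int.natAbs_neg] at h3
    have hlt : -p < x := by omega
    obtain ⟨r, hr, _, hre⟩ := exists_nearest h1 hlt (by rw [Int.natAbs_neg]; exact h3)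
    exact ⟨r, hr, by rw [hre, Int.natAbs_neg]⟩
  · rintro ⟨p, hp, rfl⟩
    have hp' := mem_Nb.1 hp
    exact ⟨⟨-p, by rw [mem_ng, neg_neg]; exact hp'.1, by omega, Int.natAbs_neg p⟩,
      by rw [Int.natAbs_neg]; exact hp'.2.2.1⟩

/-- above a positive element: all occurrences are distinct -/
theorem dd_pos {L : Finset ℤ} {x : ℤ} (hx : 0 < x) : dd L x = (L.filter (x < ·)).card := by
  classical
  unfold dd
  rw [← card_image_of_injOn (s := L.filter (x < ·)) (f := Int.natAbs)]
  · congr 1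
    rw [filter_true_of_mem]
    intro y hy
    rw [mem_image] at hy
    obtain ⟨q, hq, rfl⟩ := hy
    rw [mem_filter] at hq
    omega
  · intro a ha b hb hab
    rw [mem_coe, mem_filter] at ha hb
    omega

end Pool.Agent.P8H53.Arc
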