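import Pool.Agent.P8H53.Arc.Cycle

set_option autoImplicit false

/-! Multiplicities of births; the bound for rotating lines with many arcs. -/

namespace Pool.Agent.P8H53.Arc

open Finset

variable {M : ℕ} {n : ℤ} {Q : ℤ → Finset ℤ}

open Classical in
noncomputable def ind (P : Prop) : ℕ := if P then 1 else 0

theorem ind_pos {P : Prop} (h : P) : ind P = 1 := by unfold ind; rw [if_pos h]
theorem ind_neg {P : Prop} (h : ¬ P) : ind P = 0 := by unfold ind; rw [if_neg h]
theorem ind_le (P : Prop) : ind P ≤ 1 := by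
  by_cases h : P
  · rw [ind_pos h]
  · rw [ind_neg h]; omega

theorem cnt_eq_ind (T : ℕ) (P : ℤ → Prop) : cnt T P = ∑ i ∈ range T, ind (P (i : ℤ)) := by
  classical
  rw [cnt_eq_sum]
  apply sum_congr rfl
  intro i _
  by_cases h : P (i : ℤ)
  · rw [ind_pos h, if_pos h]
  · rw [ind_neg h, if_neg h]

theorem sum_ind_eq {α : Type} (s : Finset α) (P : α → Prop) [DecidablePred P] :
    ∑ x ∈ s, ind (P x) = (s.filter P).card := by
  rw [card_filter]
  apply sum_congr rfl
  intro i _
  by_cases h : P i
  · rw [ind_pos h, if_pos h]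
  · rw [ind_neg h, if_neg h]

/-- number of births of a pair in a period -/
noncomputable def bn (k : ℕ) (Q : ℤ → Finset ℤ) (T : ℕ) (y v : ℤ) : ℕ :=
  cnt T fun i => birth k (Q i) (Q (i + 1)) y v

theorem Config.birth_per (hQ : Config M n Q) (k : ℕ) (y v j : ℤ) :
    birth k (Q (j + ((2 * M : ℕ) : ℤ))) (Q (j + ((2 * M : ℕ) : ℤ) + 1)) y v ↔
      birth k (Q j) (Q (j + 1)) y v := by
  have h := hQ.per (j + 1)
  have h' : j + ((2 * M : ℕ) : ℤ) + 1 = j + 1 + ((2 * M : ℕ) : ℤ) := by ring
  rw [hQ.per j, h', h]

theorem Config.bn_pos (hQ : Config M n Q) {k : ℕ} {y v j : ℤ}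
    (h : birth k (Q j) (Q (j + 1)) y v) : 1 ≤ bn k Q (2 * M) y v := by
  have hM := hQ.two
  unfold bn
  rw [← cnt_shift (P := fun i => birth k (Q i) (Q (i + 1)) y v) (T := 2 * M)
    (fun i => hQ.birth_per k y v i) j]
  have := le_cnt (T := 2 * M) (P := fun i => birth k (Q (j + i)) (Q (j + i + 1)) y v) (A := {0})
    (by
      intro i hi
      rw [mem_singleton] at hi
      subst hi
      refine ⟨by omega, ?_⟩
      simpa using h)
  simpa using this

theorem Config.bn_two (hQ : Config M n Q) {k : ℕ} {y v s i : ℤ} (h1 : s < i)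
    (h2 : i < s + (2 * M : ℕ)) (hs : birth k (Q s) (Q (s + 1)) y v)
    (hi : birth k (Q i) (Q (i + 1)) y v) : 2 ≤ bn k Q (2 * M) y v := by
  have hM := hQ.two
  unfold bn
  rw [← cnt_shift (P := fun i => birth k (Q i) (Q (i + 1)) y v) (T := 2 * M)
    (fun i => hQ.birth_per k y v i) s]
  have := le_cnt (T := 2 * M) (P := fun i => birth k (Q (s + i)) (Q (s + i + 1)) y v)
    (A := {0, (i - s).toNat})
    (by
      intro r hr
      rw [mem_insert, mem_singleton] at hr
      rcases hr with rfl | rfl
      · refine ⟨by omega, ?_⟩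
        simpa using hs
      · refine ⟨by omega, ?_⟩
        have he : s + ((i - s).toNat : ℤ) = i := by omega
        rw [he]
        exact hi)
  rw [card_insert_of_notMem (by rw [mem_singleton]; omega), card_singleton] at this
  exact this

theorem Step.ins_of {L L₂ : Finset ℤ} {v : ℤ} (h : Step L L₂) (h1 : v ∉ L) (h2 : v ∈ L₂) :
    L₂ = insert v L := by
  rcases h with h | ⟨p, hp, h⟩ | ⟨p, hp, h⟩
  · rw [h] at h2; exact absurd h2 h1
  · rw [h] at h2
    rcases mem_insert.1 h2 with h3 | h3
    · rw [h3]; exact h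
    · exact absurd h3 h1
  · rw [h] at h1
    exact absurd (mem_insert_of_mem h2) h1

theorem Step.del_of {L L₂ : Finset ℤ} {v : ℤ} (h : Step L L₂) (h1 : v ∈ L) (h2 : v ∉ L₂) :
    L = insert v L₂ := by
  rcases h with h | ⟨p, hp, h⟩ | ⟨p, hp, h⟩
  · rw [h] at h2; exact absurd h1 h2
  · rw [h] at h2
    exact absurd (mem_insert_of_mem h1) h2
  · rw [h] at h1
    rcases mem_insert.1 h1 with h3 | h3
    · rw [h3]; exact h
    · exact absurd h3 h2

theorem W_look {k : ℕ} {v y q : ℤ} {L : Finset ℤ} (hq : q ∈ W k n v L) (hqy : (q.natAbs : ℤ) = y)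
    (hy : 0 < y) : (0 < q ∧ S k (insert v L) y v) ∨ (q < 0 ∧ C k (insert v L) y v) := by
  have h1 := mem_W hq
  have h2 := W_vis hq
  rw [← arcs_insert_eq (L := L) (p := v) (s := q) (t := v) (Or.inl (by omega))] at h2
  rcases lt_trichotomy q 0 with h | h | h
  · right
    refine ⟨h, ?_⟩
    have hqy' : q = -y := by omega
    subst hqy'
    refine ⟨fun hm => ?_, mem_insert_of_mem h1.1, mem_insert_self _ _, h2⟩
    rcases mem_insert.1 hm with hm | hm
    · omega
    · apply h1.2.2 h
      rwa [neg_neg]
  · omega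
  · left
    refine ⟨h, ?_⟩
    have hqy' : q = y := by omega
    subst hqy'
    exact ⟨mem_insert_of_mem h1.1, mem_insert_self _ _, h2⟩

theorem not_look {k : ℕ} {v y : ℤ} {L : Finset ℤ} (h : v ∉ L) : ¬ look k L y v := by
  rintro (h1 | h1)
  · exact h h1.2.1
  · exact h h1.2.2.1

/-- `v` sees `y` in both directions around its gap -/
def zz (k : ℕ) (n : ℤ) (Q : ℤ → Finset ℤ) (T : ℕ) (y v : ℤ) : Prop :=
  st Q T v ≠ 0 ∧ ∃ q ∈ Zv k n Q v, (q.natAbs : ℤ) = y

def seen (k : ℕ) (Q : ℤ → Finset ℤ) (y v : ℤ) : Prop := ∃ j, look k (Q j) y v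

theorem Config.mult (hQ : Config M n Q) {k : ℕ} {y v : ℤ} (hy : 0 < y) (hyv : y < v) :
    ind (seen k Q y v) + ind (zz k n Q (2 * M) y v) ≤ bn k Q (2 * M) y v +
      (ind ((∀ j, y ∈ Q j) ∧ S k (Q 0) y v) + ind ((∀ j, y ∈ Q j) ∧ 0 < wd k n v)) := by
  classical
  have hM := hQ.two
  by_cases hz : zz k n Q (2 * M) y v
  · obtain ⟨hst, q, hq, hqy⟩ := id hz
    obtain ⟨s, s1, s2⟩ := exists_start hst
    obtain ⟨e, e1, e2, e3, e4⟩ := hQ.interval (by omega) s1 s2
    rw [mem_Zv] at hq
    have hqs := hq.2 s s1
    have hqe := hq.2 (e + 1) (e4 _ (by omega) (by omega))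
    have hs' := (hQ.step s).ins_of s1 s2
    have he' := (hQ.step e).del_of (e3 e e1 le_rfl) (e4 _ (by omega) (by omega))
    have lks := W_look hqs hqy hy
    have lke := W_look hqe hqy hy
    rw [← hs'] at lks
    rw [← he'] at lke
    have look_s : look k (Q (s + 1)) y v := by
      rcases lks with h | h
      · exact Or.inl h.2
      · exact Or.inr h.2
    have bs : birth k (Q s) (Q (s + 1)) y v := Or.inr ⟨not_look s1, look_s⟩
    have hseen : seen k Q y v := ⟨s + 1, look_s⟩
    have hwd : 0 < wd k n v := by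
      unfold W at hqs
      exact Nat.lt_of_le_of_lt (Nat.zero_le _) (mem_Top.1 hqs).2
    rw [ind_pos hseen, ind_pos hz]
    by_cases hf : ∀ j, y ∈ Q j
    · rw [ind_pos (P := (∀ j, y ∈ Q j) ∧ 0 < wd k n v) ⟨hf, hwd⟩]
      have := hQ.bn_pos bs
      omega
    · have h2 : 2 ≤ bn k Q (2 * M) y v := by
        rcases lke with ⟨q0, hSe⟩ | ⟨q0, hCe⟩
        · push Not at hf
          obtain ⟨j, hj⟩ := hf
          obtain ⟨j', j1, j2, _, j4⟩ := hQ.reduce s j
          have j5 := j4 0
          rw [add_zero, add_zero] at j5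
          rw [← j5] at hj
          have j6 : j' ≤ e := by
            by_contra h
            have := hq.2 j' (e4 j' (by omega) j2)
            have hqy' : q = y := by omega
            rw [hqy'] at this
            exact hj (mem_W this).1
          obtain ⟨i, i1, i2, i3, i4⟩ := rise (P := fun j => S k (Q j) y v) j6
            (fun h => hj h.1) hSe
          exact hQ.bn_two (by omega) (by omega) bs (Or.inl ⟨i3, i4⟩)
        · have hqy' : q = -y := by omega
          subst hqy'
          by_cases hl : ∃ j, s < j ∧ j ≤ e ∧ ¬ look k (Q j) y v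
          · obtain ⟨j, j1, j2, j3⟩ := hl
            obtain ⟨i, i1, i2, i3, i4⟩ := rise (P := fun j => look k (Q j) y v) j2 j3
              (Or.inr hCe)
            exact hQ.bn_two (by omega) (by omega) bs (Or.inr ⟨i3, i4⟩)
          · push Not at hl
            have hyp : ∀ j, v ∉ Q j → y ∉ Q j := by
              intro j hj h
              exact (mem_W (hq.2 j hj)).2.2 q0 (by rwa [neg_neg])
            have hys := hyp s s1
            have hns : -y ∉ Q (s + M) := by
              rw [hQ.mir s, mem_ng, neg_neg]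
              exact hys
            have hme : s + M ≤ e := by
              by_contra h
              exact hns (mem_W (hq.2 (s + M) (e4 _ (by omega) (by push_cast; omega)))).1
            have hlm := hl (s + M) (by omega) hme
            have hSm : S k (Q (s + M)) y v := by
              rcases hlm with h | h
              · exact h
              · exact absurd h.2.1 hns
            have hys1 : y ∉ Q (s + 1) := by
              rw [hs', mem_insert]
              rintro (h | h)
              · omega
              · exact hys h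
            obtain ⟨i, i1, i2, i3, i4⟩ := rise (P := fun j => S k (Q j) y v)
              (show s + 1 ≤ s + M by omega) (fun h => hys1 h.1) hSm
            exact hQ.bn_two (by omega) (by omega) bs (Or.inl ⟨i3, i4⟩)
      omega
  · rw [ind_neg hz]
    by_cases hseen : seen k Q y v
    · rw [ind_pos hseen]
      by_cases hb : ∃ j, birth k (Q j) (Q (j + 1)) y v
      · obtain ⟨j, hj⟩ := hb
        have := hQ.bn_pos hj
        omega
      · push Not at hb
        have hup : ∀ P : ℤ → Prop, (∀ j, P (j + (2 * M : ℕ)) ↔ P j) →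
            (∀ j, ¬ (¬ P j ∧ P (j + 1))) → (∃ j, P j) → ∀ j, P j := by
          intro P hper hno hex j
          by_contra hj
          obtain ⟨j₀, h₀⟩ := hex
          have hm : ∀ m : ℕ, P (j₀ + m * (2 * M : ℕ)) := by
            intro m
            induction m with
            | zero => simpa using h₀
            | succ m ih =>
              have := (hper (j₀ + m * (2 * M : ℕ))).2 ih
              have he : j₀ + ((m + 1 : ℕ) : ℤ) * (2 * M : ℕ) =
                j₀ + m * (2 * M : ℕ) + (2 * M : ℕ) := by push_cast; ring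
              rw [he]; exact this
          have hbig : j ≤ j₀ + ((j - j₀).toNat : ℤ) * ((2 * M : ℕ) : ℤ) := by
            have h1 : ((j - j₀).toNat : ℤ) * 1 ≤ ((j - j₀).toNat : ℤ) * ((2 * M : ℕ) : ℤ) :=
              mul_le_mul_of_nonneg_left (by omega) (by omega)
            omega
          obtain ⟨i, _, _, i3, i4⟩ := rise (P := P) hbig hj (hm _)
          exact hno i ⟨i3, i4⟩
        have hl : ∀ j, look k (Q j) y v := by
          apply hup _ (fun j => by rw [hQ.per j]) (fun j h => hb j (Or.inr h)) hseen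
        have hS : ∀ j, S k (Q j) y v := by
          apply hup _ (fun j => by rw [hQ.per j]) (fun j h => hb j (Or.inl h))
          by_contra hno
          push Not at hno
          have h0 := (hl 0).resolve_left (hno 0)
          have h1 := (hl (0 + M)).resolve_left (hno (0 + M))
          apply h1.1
          rw [hQ.mir 0, mem_ng]
          exact h0.2.1
        rw [ind_pos (P := (∀ j, y ∈ Q j) ∧ S k (Q 0) y v) ⟨fun j => (hS j).1, hS 0⟩]
        omega
    · rw [ind_neg hseen]; omega

end Pool.Agent.P8H53.Arc
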