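import Pool.Agent.P8H53.Arc.Good

set_option autoImplicit false

/-! Reduction of a general rotating line to one which always meets at least `k + 2` arcs. -/

namespace Pool.Agent.P8H53.Arc

open Finset

variable {M : ℕ} {n : ℤ} {Q : ℤ → Finset ℤ}

theorem no_dvd {T a b : ℤ} (h1 : T ∣ a) (h2 : T ∣ b) (h3 : a < b) (h4 : b < a + T) : False := by
  have h5 : T ∣ b - a := dvd_sub h2 h1
  have := Int.le_of_dvd (by omega) h5
  omega

theorem Config.congr (hQ : Config M n Q) {i j : ℤ} (h : ((2 * M : ℕ) : ℤ) ∣ i - j) : Q i = Q j := by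
  obtain ⟨c, hc⟩ := h
  have h1 := hQ.per.int_mul c j
  rw [← h1]
  congr 1
  rw [Int.cast_id]
  linarith [mul_comm c ((2 * M : ℕ) : ℤ)]

theorem ng_mono {A B : Finset ℤ} (h : A ⊆ B) : ng A ⊆ ng B := by
  intro q hq
  rw [mem_ng] at hq ⊢
  exact h hq

theorem Step.ng {A B : Finset ℤ} (h : Step A B) : Step (ng A) (ng B) := by
  rcases h with h | ⟨p, hp, h⟩ | ⟨p, hp, h⟩
  · exact Step.idle (by rw [h])
  · refine Step.ins (-p) (by rw [mem_ng, neg_neg]; exact hp) (by rw [h, ng_insert])
  · refine Step.del (-p) (by rw [mem_ng, neg_neg]; exact hp) (by rw [h, ng_insert])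

theorem Step.insert_mem {A : Finset ℤ} (p : ℤ) : Step A (insert p A) := by
  by_cases h : p ∈ A
  · exact Step.idle (insert_eq_of_mem h)
  · exact Step.ins p h rfl

theorem Step.insert_mem' {A : Finset ℤ} (p : ℤ) : Step (insert p A) A := by
  by_cases h : p ∈ A
  · exact Step.idle (insert_eq_of_mem h).symm
  · exact Step.del p h rfl

/-- on a line with few arcs everything is visible -/
theorem few_look {k : ℕ} {L : Finset ℤ} {y v : ℤ} (hk : (L.image Int.natAbs).card ≤ k + 2)
    (hy : 0 < y) (hyv : y < v) (h1 : y ∈ L ∨ -y ∈ L) (h2 : v ∈ L) : look k L y v := by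
  classical
  have key : ∀ s ∈ L, s.natAbs = y.natAbs → (arcs L s v).card ≤ k := by
    intro s hs hsy
    have hsub : arcs L s v ⊆ ((L.image Int.natAbs).erase s.natAbs).erase v.natAbs := by
      intro z hz
      obtain ⟨⟨r, r1, r2, r3, r4⟩, r5, r6⟩ := mem_arcs.1 hz
      exact mem_erase.2 ⟨r6, mem_erase.2 ⟨r5, mem_image.2 ⟨r, r1, r4⟩⟩⟩
    have c1 := card_le_card hsub
    have m1 : s.natAbs ∈ L.image Int.natAbs := mem_image_of_mem _ hs
    have m2 : v.natAbs ∈ (L.image Int.natAbs).erase s.natAbs :=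
      mem_erase.2 ⟨by omega, mem_image_of_mem _ h2⟩
    rw [card_erase_of_mem m2, card_erase_of_mem m1] at c1
    omega
  by_cases h : y ∈ L
  · exact Or.inl ⟨h, h2, key y h rfl⟩
  · exact Or.inr ⟨h, h1.resolve_left h, h2, key (-y) (h1.resolve_left h) (Int.natAbs_neg y)⟩

theorem look_mem {k : ℕ} {L : Finset ℤ} {y v : ℤ} (h : look k L y v) :
    (y ∈ L ∨ -y ∈ L) ∧ v ∈ L := by
  rcases h with h | h
  · exact ⟨Or.inl h.1, h.2.1⟩
  · exact ⟨Or.inr h.2.1, h.2.2.1⟩

section modify

variable (M Q) in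
open Classical in
/-- the modified rotating line -/
noncomputable def upd (j : ℤ) (N : Finset ℤ) : ℤ → Finset ℤ := fun i =>
  if ((2 * M : ℕ) : ℤ) ∣ i - j then N else if ((2 * M : ℕ) : ℤ) ∣ i - (j + M) then ng N else Q i

theorem upd_j {j i : ℤ} {N : Finset ℤ} (h : ((2 * M : ℕ) : ℤ) ∣ i - j) :
    upd M Q j N i = N := by
  unfold upd; rw [if_pos h]

theorem upd_jM {j i : ℤ} {N : Finset ℤ} (hM : 2 ≤ M) (h : ((2 * M : ℕ) : ℤ) ∣ i - (j + M)) :
    upd M Q j N i = ng N := by
  unfold upd
  rw [if_neg, if_pos h]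
  intro h'
  exact no_dvd h h' (by omega) (by push_cast; omega)

theorem upd_else {j i : ℤ} {N : Finset ℤ} (h : ¬ ((2 * M : ℕ) : ℤ) ∣ i - j)
    (h' : ¬ ((2 * M : ℕ) : ℤ) ∣ i - (j + M)) : upd M Q j N i = Q i := by
  unfold upd
  rw [if_neg h, if_neg h']

theorem dvd_M {j i : ℤ} (h : ((2 * M : ℕ) : ℤ) ∣ i - (j + M)) :
    ((2 * M : ℕ) : ℤ) ∣ (i + M) - j := by
  have : (i + M) - j = i - (j + M) + ((2 * M : ℕ) : ℤ) := by push_cast; ring
  rw [this]
  exact dvd_add h (dvd_refl _)

theorem dvd_M' {j i : ℤ} (h : ((2 * M : ℕ) : ℤ) ∣ (i + M) - j) :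
    ((2 * M : ℕ) : ℤ) ∣ i - (j + M) := by
  have : i - (j + M) = (i + M) - j - ((2 * M : ℕ) : ℤ) := by push_cast; ring
  rw [this]
  exact dvd_sub h (dvd_refl _)

variable {j p : ℤ} {N : Finset ℤ}

theorem Config.sub_upd (hQ : Config M n Q) (hN : Q j ⊆ N) (i : ℤ) : Q i ⊆ upd M Q j N i := by
  have hM := hQ.two
  by_cases h1 : ((2 * M : ℕ) : ℤ) ∣ i - j
  · rw [upd_j h1, hQ.congr h1]; exact hN
  · by_cases h2 : ((2 * M : ℕ) : ℤ) ∣ i - (j + M)
    · rw [upd_jM hM h2, hQ.congr h2, hQ.mir j]; exact ng_mono hN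
    · rw [upd_else h1 h2]

/-- the local move is again a rotating line -/
theorem Config.upd_config (hQ : Config M n Q) (hA : Q j ⊆ Q (j - 1)) (hB : Q j ⊆ Q (j + 1))
    (hN : N = Q (j - 1) ∪ Q (j + 1)) (s1 : Step (Q (j - 1)) N) (s2 : Step N (Q (j + 1))) :
    Config M n (upd M Q j N) := by
  classical
  have hM := hQ.two
  set T : ℤ := ((2 * M : ℕ) : ℤ) with hT
  have hTM : T = 2 * M := by rw [hT]; push_cast; ring
  have nA : ∀ q, q ∈ Q (j - 1) → q ∈ N := fun q h => by rw [hN]; exact mem_union_left _ h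
  have nB : ∀ q, q ∈ Q (j + 1) → q ∈ N := fun q h => by rw [hN]; exact mem_union_right _ h
  -- description of the four special steps
  have c1 : ∀ i, T ∣ i - j → upd M Q j N i = N ∧ upd M Q j N (i + 1) = Q (j + 1) := by
    intro i h
    refine ⟨upd_j h, ?_⟩
    rw [upd_else]
    · apply hQ.congr
      have : i + 1 - (j + 1) = i - j := by ring
      rw [this]; exact h
    · intro h'
      exact no_dvd h h' (by omega) (by omega)
    · intro h'
      exact no_dvd h' h (by omega) (by omega)
  have c2 : ∀ i, T ∣ i - (j + M) → upd M Q j N i = ng N ∧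
      upd M Q j N (i + 1) = ng (Q (j + 1)) := by
    intro i h
    refine ⟨upd_jM hM h, ?_⟩
    rw [upd_else, ← hQ.mir (j + 1)]
    · apply hQ.congr
      have : i + 1 - (j + 1 + M) = i - (j + M) := by ring
      rw [this]; exact h
    · intro h'
      exact no_dvd h h' (by omega) (by omega)
    · intro h'
      exact no_dvd h h' (by omega) (by omega)
  have c3 : ∀ i, T ∣ i + 1 - j → upd M Q j N i = Q (j - 1) ∧ upd M Q j N (i + 1) = N := by
    intro i h
    refine ⟨?_, upd_j h⟩
    rw [upd_else]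
    · apply hQ.congr
      have : i - (j - 1) = i + 1 - j := by ring
      rw [this]; exact h
    · intro h'
      exact no_dvd h' h (by omega) (by omega)
    · intro h'
      exact no_dvd h' h (by omega) (by omega)
  have c4 : ∀ i, T ∣ i + 1 - (j + M) → upd M Q j N i = ng (Q (j - 1)) ∧
      upd M Q j N (i + 1) = ng N := by
    intro i h
    refine ⟨?_, upd_jM hM h⟩
    rw [upd_else, ← hQ.mir (j - 1)]
    · apply hQ.congr
      have : i - (j - 1 + M) = i + 1 - (j + M) := by ring
      rw [this]; exact h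
    · intro h'
      exact no_dvd h h' (by omega) (by omega)
    · intro h'
      exact no_dvd h' h (by omega) (by omega)
  have c5 : ∀ i, ¬ T ∣ i - j → ¬ T ∣ i - (j + M) → ¬ T ∣ i + 1 - j → ¬ T ∣ i + 1 - (j + M) →
      upd M Q j N i = Q i ∧ upd M Q j N (i + 1) = Q (i + 1) :=
    fun i h1 h2 h3 h4 => ⟨upd_else h1 h2, upd_else h3 h4⟩
  refine ⟨hM, ?_, ?_, ?_, ?_⟩
  · intro i
    by_cases h1 : T ∣ i - j
    · rw [upd_j h1, upd_jM hM]
      have : i + (M : ℤ) - (j + M) = i - j := by ring
      rw [this]; exact h1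
    · by_cases h2 : T ∣ i - (j + M)
      · rw [upd_jM hM h2, ng_ng, upd_j (dvd_M h2)]
      · rw [upd_else h1 h2, upd_else, hQ.mir i]
        · intro h; exact h2 (dvd_M' h)
        · intro h
          apply h1
          have : i - j = i + (M : ℤ) - (j + M) := by ring
          rw [this]; exact h
  · have hNr : ∀ q ∈ N, q ≠ 0 ∧ (q.natAbs : ℤ) ≤ n := by
      intro q hq
      rw [hN, mem_union] at hq
      rcases hq with hq | hq
      · exact hQ.rng _ q hq
      · exact hQ.rng _ q hq
    intro i q hq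
    by_cases h1 : T ∣ i - j
    · rw [upd_j h1] at hq
      exact hNr q hq
    · by_cases h2 : T ∣ i - (j + M)
      · rw [upd_jM hM h2, mem_ng] at hq
        have := hNr _ hq
        rw [Int.natAbs_neg] at this
        exact ⟨by have := this.1; omega, this.2⟩
      · rw [upd_else h1 h2] at hq
        exact hQ.rng i q hq
  · intro i
    by_cases h1 : T ∣ i - j
    · rw [(c1 i h1).1, (c1 i h1).2]; exact s2
    · by_cases h2 : T ∣ i - (j + M)
      · rw [(c2 i h2).1, (c2 i h2).2]; exact s2.ng
      · by_cases h3 : T ∣ i + 1 - j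
        · rw [(c3 i h3).1, (c3 i h3).2]; exact s1
        · by_cases h4 : T ∣ i + 1 - (j + M)
          · rw [(c4 i h4).1, (c4 i h4).2]; exact s1.ng
          · rw [(c5 i h1 h2 h3 h4).1, (c5 i h1 h2 h3 h4).2]; exact hQ.step i
  · -- starts
    have key : ∀ x i, x ∉ upd M Q j N i → x ∈ upd M Q j N (i + 1) →
        ¬ T ∣ i - j ∧ ¬ T ∣ i - (j + M) ∧
        (((T ∣ i + 1 - j ∨ T ∣ i + 1 - (j + M)) ∧ x ∉ Q (i + 1) ∧ x ∈ Q (i + 1 + 1)) ∨
          (x ∉ Q i ∧ x ∈ Q (i + 1))) := by
      intro x i h1 h2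
      have e1 : ¬ T ∣ i - j := by
        intro h
        rw [(c1 i h).1] at h1
        rw [(c1 i h).2] at h2
        exact h1 (nB x h2)
      have e2 : ¬ T ∣ i - (j + M) := by
        intro h
        rw [(c2 i h).1, mem_ng] at h1
        rw [(c2 i h).2, mem_ng] at h2
        exact h1 (nB _ h2)
      refine ⟨e1, e2, ?_⟩
      by_cases h3 : T ∣ i + 1 - j
      · left
        rw [(c3 i h3).1] at h1
        rw [(c3 i h3).2, hN, mem_union] at h2
        refine ⟨Or.inl h3, ?_, ?_⟩
        · rw [hQ.congr h3]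
          exact fun h => h1 (hA h)
        · have : Q (i + 1 + 1) = Q (j + 1) := by
            apply hQ.congr
            have : i + 1 + 1 - (j + 1) = i + 1 - j := by ring
            rw [this]; exact h3
          rw [this]
          exact h2.resolve_left h1
      · by_cases h4 : T ∣ i + 1 - (j + M)
        · left
          rw [(c4 i h4).1, mem_ng] at h1
          rw [(c4 i h4).2, mem_ng, hN, mem_union] at h2
          refine ⟨Or.inr h4, ?_, ?_⟩
          · rw [hQ.congr h4, hQ.mir j, mem_ng]
            exact fun h => h1 (hA h)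
          · have : Q (i + 1 + 1) = Q (j + 1 + M) := by
              apply hQ.congr
              have : i + 1 + 1 - (j + 1 + M) = i + 1 - (j + M) := by ring
              rw [this]; exact h4
            rw [this, hQ.mir (j + 1), mem_ng]
            exact h2.resolve_left h1
        · right
          rw [(c5 i e1 e2 h3 h4).1] at h1
          rw [(c5 i e1 e2 h3 h4).2] at h2
          exact ⟨h1, h2⟩
    intro x hx i i' h1 h2 h3 h4
    obtain ⟨a1, a2, a3⟩ := key x i h1 h2
    obtain ⟨b1, b2, b3⟩ := key x i' h3 h4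
    rcases a3 with ⟨a4, a5, a6⟩ | ⟨a5, a6⟩
    · rcases b3 with ⟨b4, b5, b6⟩ | ⟨b5, b6⟩
      · have := hQ.one x hx (i + 1) (i' + 1) a5 a6 b5 b6
        have e : i + 1 - (i' + 1) = i - i' := by ring
        rwa [e] at this
      · exfalso
        have := hQ.one x hx (i + 1) i' a5 a6 b5 b6
        rcases a4 with a4 | a4
        · apply b1
          have e : i' - j = (i + 1 - j) - (i + 1 - i') := by ring
          rw [e]; exact dvd_sub a4 this
        · apply b2
          have e : i' - (j + M) = (i + 1 - (j + M)) - (i + 1 - i') := by ring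
          rw [e]; exact dvd_sub a4 this
    · rcases b3 with ⟨b4, b5, b6⟩ | ⟨b5, b6⟩
      · exfalso
        have := hQ.one x hx i (i' + 1) a5 a6 b5 b6
        rcases b4 with b4 | b4
        · apply a1
          have e : i - j = (i' + 1 - j) + (i - (i' + 1)) := by ring
          rw [e]; exact dvd_add b4 this
        · apply a2
          have e : i - (j + M) = (i' + 1 - (j + M)) + (i - (i' + 1)) := by ring
          rw [e]; exact dvd_add b4 this
      · exact hQ.one x hx i i' a5 a6 b5 b6

theorem Config.upd_seen (hQ : Config M n Q) {k : ℕ} (hA : Q j ⊆ Q (j - 1))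
    (hk : ((Q (j - 1)).image Int.natAbs).card ≤ k + 2) {y v : ℤ}
    (hy : 0 < y) (hyv : y < v) (h : seen k Q y v) : seen k (upd M Q j N) y v := by
  classical
  have hM := hQ.two
  obtain ⟨i, hi⟩ := h
  by_cases h1 : ((2 * M : ℕ) : ℤ) ∣ i - j
  · refine ⟨j - 1, ?_⟩
    rw [upd_else]
    · rw [hQ.congr h1] at hi
      have := look_mem hi
      exact few_look hk hy hyv (this.1.imp (fun h => hA h) (fun h => hA h)) (hA this.2)
    · intro h
      exact no_dvd h (dvd_zero _) (by omega) (by push_cast; omega)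
    · intro h
      exact no_dvd (dvd_neg.2 (dvd_refl _)) h (by push_cast; omega) (by push_cast; omega)
  · by_cases h2 : ((2 * M : ℕ) : ℤ) ∣ i - (j + M)
    · refine ⟨j - 1 + M, ?_⟩
      rw [upd_else, hQ.mir (j - 1)]
      · rw [hQ.congr h2, hQ.mir j] at hi
        have := look_mem hi
        exact few_look (by rw [image_ng]; exact hk) hy hyv
          (this.1.imp (fun h => ng_mono hA h) (fun h => ng_mono hA h)) (ng_mono hA this.2)
      · intro h
        exact no_dvd (dvd_zero _) h (by omega) (by push_cast; omega)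
      · intro h
        exact no_dvd h (dvd_zero _) (by omega) (by push_cast; omega)
    · refine ⟨i, ?_⟩
      rw [upd_else h1 h2]
      exact hi

end modify

/-- total size -/
def size (Q : ℤ → Finset ℤ) (T : ℕ) : ℕ := ∑ i ∈ range T, (Q (i : ℤ)).card

theorem Config.size_le (hQ : Config M n Q) : size Q (2 * M) ≤ 2 * M * (2 * n + 1).toNat := by
  unfold size
  calc ∑ i ∈ range (2 * M), (Q (i : ℤ)).card ≤ ∑ i ∈ range (2 * M), (2 * n + 1).toNat := by
        apply sum_le_sum
        intro i _
        have h : Q (i : ℤ) ⊆ Icc (-n) n := by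
          intro q hq
          have := (hQ.rng i q hq).2
          rw [mem_Icc]; omega
        have := card_le_card h
        rw [Int.card_Icc] at this
        omega
    _ = 2 * M * (2 * n + 1).toNat := by rw [sum_const, card_range, smul_eq_mul]

theorem Config.size_lt (hQ : Config M n Q) {j : ℤ} {N : Finset ℤ} (hN : Q j ⊆ N)
    (hlt : (Q j).card < N.card) : size Q (2 * M) < size (upd M Q j N) (2 * M) := by
  have hM := hQ.two
  unfold size
  obtain ⟨j', j1, j2, j3, _⟩ := hQ.reduce (-1) j
  apply sum_lt_sum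
  · intro i _
    exact card_le_card (hQ.sub_upd hN i)
  · refine ⟨j'.toNat, mem_range.2 (by omega), ?_⟩
    have e : ((j'.toNat : ℕ) : ℤ) = j' := by omega
    have j4 : ((2 * M : ℕ) : ℤ) ∣ j' - j := by
      have : j' - j = -(j - j') := by ring
      rw [this]; exact dvd_neg.2 j3
    rw [e, upd_j j4, hQ.congr j4]
    exact hlt

/-- a constant line with few arcs -/
theorem few_const {k : ℕ} {L : Finset ℤ} (hc : (L.image Int.natAbs).card ≤ k + 1)
    (hQ : ∀ j, Q j = L) :
    ∑ v ∈ Icc 1 n, ∑ y ∈ (Icc 1 n).filter (· < v), ind (seen k Q y v) ≤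
      3 * ∑ x ∈ Icc 1 n, min (k + 1) (n - x).toNat := by
  classical
  have hsw : ∑ v ∈ Icc 1 n, ∑ y ∈ (Icc 1 n).filter (· < v), ind (seen k Q y v) =
      ∑ y ∈ Icc 1 n, ∑ v ∈ (Icc 1 n).filter (y < ·), ind (seen k Q y v) := by
    simp only [sum_filter]
    rw [sum_comm]
  rw [hsw]
  have : ∑ y ∈ Icc 1 n, ∑ v ∈ (Icc 1 n).filter (y < ·), ind (seen k Q y v) ≤
      ∑ x ∈ Icc 1 n, min (k + 1) (n - x).toNat := by
    apply sum_le_sum
    intro y hy
    rw [mem_Icc] at hy
    rw [sum_ind_eq _ (fun v => seen k Q y v)]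
    have h1 : (((Icc 1 n).filter (y < ·)).filter fun v => seen k Q y v).card ≤ k + 1 := by
      refine le_trans ?_ hc
      apply card_le_card_of_injOn Int.natAbs
      · intro v hv
        rw [mem_coe, mem_filter] at hv
        obtain ⟨j, hj⟩ := hv.2
        rw [hQ j] at hj
        rw [mem_coe]
        exact mem_image_of_mem _ (look_mem hj).2
      · intro a ha b hb hab
        rw [mem_coe, mem_filter, mem_filter, mem_Icc] at ha hb
        omega
    have h2 : (((Icc 1 n).filter (y < ·)).filter fun v => seen k Q y v).card ≤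
        (n - y).toNat := by
      have hs : (((Icc 1 n).filter (y < ·)).filter fun v => seen k Q y v) ⊆ Icc (y + 1) n := by
        intro v hv
        rw [mem_filter, mem_filter, mem_Icc] at hv
        rw [mem_Icc]; omega
      have := card_le_card hs
      rw [Int.card_Icc] at this
      omega
    exact le_min h1 h2
  omega

/-- the bound for all rotating lines -/
theorem Config.bound (k : ℕ) : ∀ (d : ℕ) (Q : ℤ → Finset ℤ), Config M n Q →
    2 * M * (2 * n + 1).toNat - size Q (2 * M) = d →
    ∑ v ∈ Icc 1 n, ∑ y ∈ (Icc 1 n).filter (· < v), ind (seen k Q y v) ≤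
      3 * ∑ x ∈ Icc 1 n, min (k + 1) (n - x).toNat := by
  classical
  intro d
  induction d using Nat.strong_induction_on with
  | _ d ih =>
  intro Q hQ hd
  have hM := hQ.two
  by_cases hgood : ∀ j, k + 2 ≤ ((Q j).image Int.natAbs).card
  · exact hQ.good hgood
  push Not at hgood
  by_cases hdel : ∃ j, ((Q j).image Int.natAbs).card < k + 2 ∧ ¬ Q (j - 1) ⊆ Q j
  · -- take such a `j` with the fewest occurrences
    obtain ⟨m, ⟨j, hj1, hj2, hj3⟩, hmin⟩ : ∃ m, (∃ j, ((Q j).image Int.natAbs).card < k + 2 ∧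
        ¬ Q (j - 1) ⊆ Q j ∧ (Q j).card = m) ∧ ∀ m' < m, ¬ ∃ j,
        ((Q j).image Int.natAbs).card < k + 2 ∧ ¬ Q (j - 1) ⊆ Q j ∧ (Q j).card = m' := by
      obtain ⟨j, hj1, hj2⟩ := hdel
      have hex : ∃ m, ∃ j, ((Q j).image Int.natAbs).card < k + 2 ∧
        ¬ Q (j - 1) ⊆ Q j ∧ (Q j).card = m := ⟨_, j, hj1, hj2, rfl⟩
      exact ⟨Nat.find hex, Nat.find_spec hex, fun m' hm' => Nat.find_min hex hm'⟩
    have hst := hQ.step (j - 1)
    rw [sub_add_cancel] at hst
    obtain ⟨p, hp, hA⟩ : ∃ p, p ∉ Q j ∧ Q (j - 1) = insert p (Q j) := by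
      rcases hst with h | ⟨p, hp, h⟩ | ⟨p, hp, h⟩
      · exact absurd (by rw [h]) hj2
      · exact absurd (by rw [h]; exact subset_insert _ _) hj2
      · exact ⟨p, hp, h⟩
    have hAs : Q j ⊆ Q (j - 1) := by rw [hA]; exact subset_insert _ _
    have hB : Q j ⊆ Q (j + 1) ∧ ∃ r, Q (j + 1) = Q j ∨ Q (j + 1) = insert r (Q j) := by
      rcases hQ.step j with h | ⟨r, hr, h⟩ | ⟨r, hr, h⟩
      · exact ⟨by rw [h], 0, Or.inl h⟩
      · exact ⟨by rw [h]; exact subset_insert _ _, r, Or.inr h⟩
      · exfalso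
        apply hmin (Q (j + 1)).card (by rw [← hj3, h, card_insert_of_notMem hr]; omega)
        refine ⟨j + 1, ?_, ?_, rfl⟩
        · refine lt_of_le_of_lt (card_le_card (image_subset_image ?_)) hj1
          rw [h]; exact subset_insert _ _
        · rw [add_sub_cancel_right, h]
          intro hs
          exact hr (hs (mem_insert_self _ _))
    obtain ⟨hBs, r, hr⟩ := hB
    have hN1 : Step (Q (j - 1)) (Q (j - 1) ∪ Q (j + 1)) := by
      rcases hr with hr | hr
      · apply Step.idle
        rw [hr, union_eq_left]; exact hAs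
      · have : Q (j - 1) ∪ Q (j + 1) = insert r (Q (j - 1)) := by
          rw [hr, union_insert, union_eq_left.2 hAs]
        rw [this]
        exact Step.insert_mem r
    have hN2 : Step (Q (j - 1) ∪ Q (j + 1)) (Q (j + 1)) := by
      have : Q (j - 1) ∪ Q (j + 1) = insert p (Q (j + 1)) := by
        rw [hA, insert_union, union_eq_right.2 hBs]
      rw [this]
      exact Step.insert_mem' p
    set N := Q (j - 1) ∪ Q (j + 1) with hN
    have hc := hQ.upd_config hAs hBs hN hN1 hN2
    have hsub : Q j ⊆ N := hAs.trans subset_union_left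
    have hlt : (Q j).card < N.card := by
      apply card_lt_card
      refine ⟨hsub, fun h => hp (h ?_)⟩
      rw [hN, hA]
      exact mem_union_left _ (mem_insert_self _ _)
    have hsz := hQ.size_lt hsub hlt
    have hsz' := hc.size_le
    have hb := ih _ (by omega) (upd M Q j N) hc rfl
    refine le_trans (sum_le_sum fun v _ => sum_le_sum fun y hy => ?_) hb
    rw [mem_filter, mem_Icc] at hy
    have hk : ((Q (j - 1)).image Int.natAbs).card ≤ k + 2 := by
      rw [hA, image_insert]
      have := card_insert_le p.natAbs ((Q j).image Int.natAbs)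
      omega
    by_cases hs : seen k Q y v
    · rw [ind_pos hs, ind_pos (hQ.upd_seen hAs hk (by omega) hy.2 hs)]
    · rw [ind_neg hs]; exact Nat.zero_le _
  · -- the line is constant
    push Not at hdel
    obtain ⟨j₀, hj₀⟩ := hgood
    have hfew : ∀ m : ℕ, ((Q (j₀ - m)).image Int.natAbs).card < k + 2 := by
      intro m
      induction m with
      | zero => simpa using hj₀
      | succ m ihm =>
        have h := hdel _ ihm
        have e : j₀ - ((m + 1 : ℕ) : ℤ) = j₀ - m - 1 := by push_cast; ring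
        rw [e]
        exact lt_of_le_of_lt (card_le_card (image_subset_image h)) ihm
    have hall : ∀ j, ((Q j).image Int.natAbs).card < k + 2 := by
      intro j
      obtain ⟨j', j1, j2, j3, j4⟩ := hQ.reduce (j₀ - (2 * M : ℕ)) j
      have := j4 0
      rw [add_zero, add_zero] at this
      rw [← this]
      have h := hfew (j₀ - j').toNat
      have e : j₀ - ((j₀ - j').toNat : ℤ) = j' := by omega
      rwa [e] at h
    have hmono : ∀ j, Q (j - 1) ⊆ Q j := fun j => hdel j (hall j)
    have hmono' : ∀ (m : ℕ) j, Q (j - m) ⊆ Q j := by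
      intro m
      induction m with
      | zero => intro j; simp
      | succ m ihm =>
        intro j
        have e : j - ((m + 1 : ℕ) : ℤ) = (j - 1) - m := by push_cast; ring
        rw [e]
        exact (ihm (j - 1)).trans (hmono j)
    have hconst : ∀ j, Q j = Q 0 := by
      intro j
      obtain ⟨j', j1, j2, j3, j4⟩ := hQ.reduce (-1) j
      have e0 := j4 0
      rw [add_zero, add_zero] at e0
      rw [← e0]
      apply Subset.antisymm
      · have h := hmono' ((2 * M : ℕ) - j').toNat (2 * M : ℕ)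
        have e : ((2 * M : ℕ) : ℤ) - ((((2 * M : ℕ) : ℤ) - j').toNat : ℤ) = j' := by omega
        rw [e] at h
        have e2 := hQ.per 0
        rw [zero_add] at e2
        rwa [e2] at h
      · have h := hmono' j'.toNat j'
        have e : j' - (j'.toNat : ℤ) = 0 := by omega
        rwa [e] at h
    exact few_const (L := Q 0) (by have := hall 0; omega) hconst

end Pool.Agent.P8H53.Arc
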