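import Pool.Agent.P8H53.Arc.Geo

set_option autoImplicit false

/-! The number of edges of an arc `k`-visibility graph. -/

namespace Pool.Agent.P8H53.Arc

open Finset Pool.Agent.X63

theorem sum_min_Icc (k n : ℕ) : ∑ x ∈ Icc (1 : ℤ) n, min (k + 1) ((n : ℤ) - x).toNat =
    ∑ i ∈ range n, min (k + 1) i := by
  apply sum_nbij' (fun x => ((n : ℤ) - x).toNat) (fun i => (n : ℤ) - i)
  · intro x hx
    rw [mem_Icc] at hx
    rw [mem_range]; omega
  · intro i hi
    rw [mem_range] at hi
    rw [mem_Icc]; omega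
  · intro x hx
    rw [mem_Icc] at hx
    omega
  · intro i hi
    rw [mem_range] at hi
    omega
  · intro x _
    rfl

/-- an arc `k`-visibility graph on `n` vertices has at most `3 ∑ min (k + 1, i)` edges -/
theorem edges_le {k n : ℕ} {G : SimpleGraph (Fin n)} (hG : IsArcVis k G) :
    G.edgeSet.ncard ≤ 3 * ∑ i ∈ range n, min (k + 1) i := by
  classical
  rcases Nat.eq_zero_or_pos n with hn | hn
  · subst hn
    have : G.edgeSet = ∅ := by
      ext e
      induction e using Sym2.ind with
      | _ x y => exact x.elim0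
    rw [this]; simp
  obtain ⟨r, a, b, hr, hdis, hadj⟩ := hG
  obtain ⟨rk, h1, h2, h3, h4⟩ := exists_rank (α := Fin n × Bool) (m := 2 * n)
    (by rw [Fintype.card_prod, Fintype.card_fin, Fintype.card_bool, mul_comm])
    (fun e => Int.fract (tm a b e))
  obtain ⟨ρ, g1, g2, g3, g4⟩ := exists_rank (α := Fin n) (m := n) (Fintype.card_fin n) r
  set Q := line (tm a b) rk ρ with hQdef
  have hQ : Config (2 * n) (n : ℤ) Q := line_config hn h1 h2 g2 g1
  have hseen : ∀ u v : Fin n, G.Adj u v → ρ u < ρ v →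
      seen k Q ((ρ u : ℤ) + 1) ((ρ v : ℤ) + 1) := by
    intro u v huv hlt
    have hne : u ≠ v := huv.ne
    obtain ⟨s₁, s₂, b₁, b₂, z₁, z₂, hs, hb, _, hside, hk⟩ := (hadj u v hne).1 huv
    rcases hside with ⟨hu, hv⟩ | ⟨hu, hv⟩
    · have := seen_of_radVis hn (fun w => (hr w).1) h1 h2 h3 h4 g2 g1 g4 hne z₁ z₂ hs hb hu hv hk
      rw [min_eq_left (by omega), max_eq_right (by omega)] at this
      exact this
    · have hk' : Set.ncard {w : Fin n | w ≠ v ∧ w ≠ u ∧
          (arcSet (r w) (a w) (b w) ∩ coneSet s₁ s₂ b₁ b₂).Nonempty} ≤ k := by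
        refine le_trans (le_of_eq ?_) hk
        congr 1
        ext w
        simp only [Set.mem_setOf_eq]
        tauto
      have := seen_of_radVis hn (fun w => (hr w).1) h1 h2 h3 h4 g2 g1 g4 hne.symm z₁ z₂ hs hb
        hu hv hk'
      rw [min_eq_right (by omega), max_eq_left (by omega)] at this
      exact this
  set P := ((Icc (1 : ℤ) n) ×ˢ (Icc (1 : ℤ) n)).filter fun p => p.1 < p.2 ∧ seen k Q p.1 p.2
    with hP
  have hPcard : P.card =
      ∑ v ∈ Icc (1 : ℤ) n, ∑ y ∈ (Icc (1 : ℤ) n).filter (· < v), ind (seen k Q y v) := by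
    rw [hP, card_filter, sum_product_right]
    apply sum_congr rfl
    intro v _
    rw [sum_filter]
    apply sum_congr rfl
    intro y _
    by_cases h1 : y < v <;> by_cases h2 : seen k Q y v <;> simp [h1, h2, ind]
  haveI : Nonempty (Fin n) := ⟨⟨0, hn⟩⟩
  set ι : ℤ → Fin n := fun t => Function.invFun ρ (t - 1).toNat with hι
  have hιρ : ∀ u, ι ((ρ u : ℤ) + 1) = u := by
    intro u
    rw [hι]
    simp only
    have : ((ρ u : ℤ) + 1 - 1).toNat = ρ u := by omega
    rw [this]
    exact Function.leftInverse_invFun g2 u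
  have hsub : G.edgeSet ⊆ (P.image fun p => s(ι p.1, ι p.2) : Finset (Sym2 (Fin n))) := by
    intro e he
    induction e using Sym2.ind with
    | _ u v =>
      rw [SimpleGraph.mem_edgeSet] at he
      rw [mem_coe, mem_image]
      have hne : ρ u ≠ ρ v := fun h => he.ne (g2 h)
      have gu := g1 u
      have gv := g1 v
      rcases lt_or_gt_of_ne hne with h | h
      · refine ⟨((ρ u : ℤ) + 1, (ρ v : ℤ) + 1), ?_, by simp only [hιρ]⟩
        rw [hP, mem_filter, mem_product, mem_Icc, mem_Icc]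
        exact ⟨⟨⟨by omega, by omega⟩, by omega, by omega⟩, by simp only; omega, hseen u v he h⟩
      · refine ⟨((ρ v : ℤ) + 1, (ρ u : ℤ) + 1), ?_, by simp only [hιρ]; exact Sym2.eq_swap⟩
        rw [hP, mem_filter, mem_product, mem_Icc, mem_Icc]
        exact ⟨⟨⟨by omega, by omega⟩, by omega, by omega⟩, by simp only; omega,
          hseen v u he.symm h⟩
  calc G.edgeSet.ncard ≤ ((P.image fun p => s(ι p.1, ι p.2) : Finset (Sym2 (Fin n))) :
        Set (Sym2 (Fin n))).ncard := Set.ncard_le_ncard hsub (Finset.finite_toSet _)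
    _ = (P.image fun p => s(ι p.1, ι p.2)).card := Set.ncard_coe_finset _
    _ ≤ P.card := card_image_le
    _ ≤ 3 * ∑ x ∈ Icc (1 : ℤ) n, min (k + 1) ((n : ℤ) - x).toNat := by
        rw [hPcard]
        exact Config.bound k _ Q hQ rfl
    _ = 3 * ∑ i ∈ range n, min (k + 1) i := by rw [sum_min_Icc]

theorem sum_min (k n : ℕ) (hn : k + 1 ≤ n) :
    2 * ∑ i ∈ range n, min (k + 1) i + (k + 1) * (k + 2) = 2 * (k + 1) * n := by
  induction n, hn using Nat.le_induction with
  | base =>
    have h1 : ∑ i ∈ range (k + 1), min (k + 1) i = ∑ i ∈ range (k + 1), i := by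
      apply sum_congr rfl
      intro i hi
      rw [mem_range] at hi
      omega
    have h2 := sum_range_id_mul_two (k + 1)
    rw [h1]
    simp only [Nat.add_sub_cancel] at h2
    nlinarith
  | succ n hn ih =>
    rw [sum_range_succ, min_eq_left (by omega)]
    nlinarith

end Pool.Agent.P8H53.Arc
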